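import Pool.Agent.P.MP_a2beea_nt.RR.Basic

/-!
Divisors, Riemann-Roch spaces, approximation, finiteness of residue fields.
-/

namespace Pool.Agent.P.MP_a2beea_nt.RR

open Polynomial IntermediateField

/-- Divisors of `F/k`. -/
abbrev Divisor (k F : Type*) [Field k] [Field F] [Algebra k F] := Place k F →₀ ℤ

variable {k F : Type*} [Field k] [Field F] [Algebra k F]

/-- The degree of a divisor. -/
noncomputable def degD : Divisor k F →+ ℤ :=
  Finsupp.liftAddHom fun P => AddMonoidHom.mulRight (P.deg : ℤ)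

@[simp] theorem degD_single (P : Place k F) (n : ℤ) : degD (Finsupp.single P n) = n * P.deg := by
  simp [degD]

theorem degD_apply (D : Divisor k F) : degD D = D.sum fun P n => n * (P.deg : ℤ) := by
  simp [degD, Finsupp.liftAddHom_apply]

theorem degD_nonneg {D : Divisor k F} (h : 0 ≤ D) : 0 ≤ degD D := by
  rw [degD_apply]
  exact Finset.sum_nonneg fun P _ => mul_nonneg (h P) (Int.natCast_nonneg _)

variable [IsFF k F]

variable (k) in
/-- The divisor of a function. -/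
noncomputable def divF (x : F) : Divisor k F :=
  Finsupp.ofSupportFinite (fun P => P.ord x) (finite_ord x)

@[simp] theorem divF_apply (x : F) (P : Place k F) : divF k x P = P.ord x := rfl

theorem divF_mul {x y : F} (hx : x ≠ 0) (hy : y ≠ 0) : divF k (x * y) = divF k x + divF k y := by
  ext P; simp [P.ord_mul hx hy]

theorem divF_inv (x : F) : divF k x⁻¹ = -divF k x := by ext P; simp

theorem divF_one : divF k (1 : F) = 0 := by ext P; simp

theorem divF_zpow (x : F) (n : ℤ) : divF k (x ^ n) = n • divF k x := by ext P; simp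

variable (k) in
/-- The polar divisor of a function. -/
noncomputable def poleD (x : F) : Divisor k F :=
  (divF k x).mapRange (fun n => max 0 (-n)) (by simp)

@[simp] theorem poleD_apply (x : F) (P : Place k F) : poleD k x P = max 0 (-P.ord x) := rfl

theorem poleD_of_mem {x : F} {P : Place k F} (h : x ∈ P.O) : poleD k x P = 0 := by
  have := P.mem_iff.1 h
  rw [poleD_apply]; omega

theorem poleD_of_notMem {x : F} {P : Place k F} (h : x ∉ P.O) :
    poleD k x P = -P.ord x ∧ 0 < poleD k x P := by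
  have := P.notMem_iff.1 h
  rw [poleD_apply]; omega

theorem poleD_nonneg (x : F) (P : Place k F) : 0 ≤ poleD k x P := le_max_left _ _

theorem poleD_inv (x : F) : poleD k x⁻¹ = poleD k x + divF k x := by
  ext P
  simp only [poleD_apply, Place.ord_inv, Finsupp.add_apply, divF_apply]; omega

/-- The Riemann-Roch space of a divisor. -/
noncomputable def LL (D : Divisor k F) : Submodule k F := ⨅ P : Place k F, P.pw (-D P)

/-- The dimension of the Riemann-Roch space. -/
noncomputable def ell (D : Divisor k F) : ℕ := Module.finrank k (LL D)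

/-- The functions with poles bounded by `D` on the chart of `u`. -/
noncomputable def Iu (u : F) (D : Divisor k F) : Submodule k F :=
  ⨅ P : Place k F, ⨅ _ : u ∈ P.O, P.pw (-D P)

theorem mem_LL {D : Divisor k F} {x : F} : x ∈ LL D ↔ ∀ P : Place k F, x ∈ P.pw (-D P) := by
  simp [LL]

theorem mem_Iu {u : F} {D : Divisor k F} {x : F} :
    x ∈ Iu u D ↔ ∀ P : Place k F, u ∈ P.O → x ∈ P.pw (-D P) := by
  simp [Iu]

theorem mem_Iu_zero {u x : F} : x ∈ Iu u (0 : Divisor k F) ↔ x ∈ Ou k u := by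
  simp [mem_Iu, mem_Ou, Place.mem_pw_zero]

theorem mem_LL_iff {D : Divisor k F} {x : F} (hx : x ≠ 0) : x ∈ LL D ↔ 0 ≤ divF k x + D := by
  rw [mem_LL]
  refine forall_congr' fun P => ?_
  rw [Place.mem_pw]
  simp only [hx, false_or, Finsupp.coe_zero, Pi.zero_apply, Finsupp.add_apply, divF_apply]
  omega

theorem LL_mono {D D' : Divisor k F} (h : D ≤ D') : LL D ≤ LL D' := fun _ hx =>
  mem_LL.2 fun P => P.pw_mono (neg_le_neg (h P)) (mem_LL.1 hx P)

theorem mul_mem_LL {D D' : Divisor k F} {x y : F} (hx : x ∈ LL D) (hy : y ∈ LL D') :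
    x * y ∈ LL (D + D') := mem_LL.2 fun P => by
  rw [Finsupp.add_apply, neg_add]
  exact P.mul_mem_pw (mem_LL.1 hx P) (mem_LL.1 hy P)

theorem mul_mem_Iu {u : F} {D D' : Divisor k F} {x y : F} (hx : x ∈ Iu u D) (hy : y ∈ Iu u D') :
    x * y ∈ Iu u (D + D') := mem_Iu.2 fun P hP => by
  rw [Finsupp.add_apply, neg_add]
  exact P.mul_mem_pw (mem_Iu.1 hx P hP) (mem_Iu.1 hy P hP)

theorem mul_mem_Iu_of_mem {u : F} {D : Divisor k F} {x y : F} (hx : x ∈ Ou k u)
    (hy : y ∈ Iu u D) : x * y ∈ Iu u D := by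
  simpa using mul_mem_Iu (mem_Iu_zero.2 hx) hy

theorem mul_mem_LL_iff {D : Divisor k F} {x y : F} (hx : x ≠ 0) :
    x * y ∈ LL D ↔ y ∈ LL (D + divF k x) := by
  rw [mem_LL, mem_LL]
  refine forall_congr' fun P => ?_
  rw [P.mul_mem_pw_iff hx, Finsupp.add_apply, divF_apply, neg_add, sub_eq_add_neg]

/-- Multiplication by a function identifies the spaces of equivalent divisors. -/
noncomputable def mulEquivLL (D : Divisor k F) {x : F} (hx : x ≠ 0) :
    LL (D + divF k x) ≃ₗ[k] LL D where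
  toFun y := ⟨x * y, (mul_mem_LL_iff hx).2 y.2⟩
  invFun y := ⟨x⁻¹ * y, (mul_mem_LL_iff hx).1 (by rw [mul_inv_cancel_left₀ hx]; exact y.2)⟩
  map_add' a b := Subtype.ext (mul_add _ _ _)
  map_smul' c a := Subtype.ext (mul_smul_comm _ _ _)
  left_inv a := Subtype.ext (inv_mul_cancel_left₀ hx _)
  right_inv a := Subtype.ext (mul_inv_cancel_left₀ hx _)

theorem ell_add_divF (D : Divisor k F) {x : F} (hx : x ≠ 0) : ell (D + divF k x) = ell D :=
  (mulEquivLL D hx).finrank_eq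

theorem finite_not_mem_pw (D : Divisor k F) (x : F) :
    {P : Place k F | x ∉ P.pw (-D P)}.Finite := by
  refine (D.support.finite_toSet.union (finite_poles x)).subset fun P hP => ?_
  by_contra hc
  simp only [Set.mem_union, Finset.mem_coe, Finsupp.mem_support_iff, Set.mem_ofPred_eq, not_or,
    not_not] at hc
  exact hP (by rw [hc.1, neg_zero, P.mem_pw_zero]; exact hc.2)

theorem Place.exists_pow_mul_mem (P : Place k F) {s : F} (hs : s ∈ P.O.nonunits) (x : F) (m : ℤ) :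
    ∃ n : ℕ, s ^ n * x ∈ P.pw m := by
  by_cases hx : x = 0
  · exact ⟨0, by simp [hx]⟩
  rcases P.mem_nonunits_iff.1 hs with h | h
  · exact ⟨1, by simp [h]⟩
  · have h0 : s ≠ 0 := by rintro rfl; simp at h
    refine ⟨(m - P.ord x).toNat, P.mem_pw_of_le ?_⟩
    rw [P.ord_mul (pow_ne_zero _ h0) hx, P.ord_pow]
    have h1 : m - P.ord x ≤ ((m - P.ord x).toNat : ℤ) := Int.self_le_toNat _
    nlinarith [Int.natCast_nonneg (m - P.ord x).toNat]

/-- Clearing poles on a chart by elements of a multiplicative set. -/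
theorem exists_mul_mem_Iu (u : F) (S : Submonoid F) (hS : ∀ s ∈ S, s ∈ Ou k u) (D : Divisor k F)
    (x : F) (h : ∀ Q : Place k F, u ∈ Q.O → x ∉ Q.pw (-D Q) → ∃ s ∈ S, s ∈ Q.O.nonunits) :
    ∃ s ∈ S, s * x ∈ Iu u D := by
  classical
  have key : ∀ T : Finset (Place k F), (∀ Q ∈ T, u ∈ Q.O ∧ x ∉ Q.pw (-D Q)) →
      ∃ s ∈ S, ∀ Q ∈ T, s * x ∈ Q.pw (-D Q) := by
    intro T
    induction T using Finset.induction_on with
    | empty => exact fun _ => ⟨1, S.one_mem, by simp⟩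
    | insert Q T _ ih =>
      intro hT
      obtain ⟨s, hs, hs'⟩ := ih fun R hR => hT R (Finset.mem_insert_of_mem hR)
      have hQ := hT Q (Finset.mem_insert_self _ _)
      obtain ⟨t, ht, ht'⟩ := h Q hQ.1 hQ.2
      obtain ⟨n, hn⟩ := Q.exists_pow_mul_mem ht' (s * x) (-D Q)
      refine ⟨t ^ n * s, S.mul_mem (S.pow_mem ht n) hs, fun R hR => ?_⟩
      rw [mul_assoc]
      rcases Finset.mem_insert.1 hR with rfl | hR
      · exact hn
      · exact R.mul_mem_pw_of_mem
          (pow_mem (hS t ht R (hT R (Finset.mem_insert_of_mem hR)).1) n) (hs' R hR)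
  have hf : {Q : Place k F | u ∈ Q.O ∧ x ∉ Q.pw (-D Q)}.Finite :=
    (finite_not_mem_pw D x).subset fun Q hQ => hQ.2
  obtain ⟨s, hs, hs'⟩ := key hf.toFinset fun Q hQ => hf.mem_toFinset.1 hQ
  refine ⟨s, hs, mem_Iu.2 fun Q hQ => ?_⟩
  by_cases hx : x ∈ Q.pw (-D Q)
  · exact Q.mul_mem_pw_of_mem (hS s hs Q hQ) hx
  · exact hs' Q (hf.mem_toFinset.2 ⟨hQ, hx⟩)

namespace Chart

variable {K0 : IntermediateField k F} {u : F}

theorem separate (h : Chart K0 u) {P Q : Place k F} (hP : u ∈ P.O) (hQ : u ∈ Q.O) (hne : P ≠ Q) :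
    ∃ s ∈ Ou k u, s ∉ P.O.nonunits ∧ s ∈ Q.O.nonunits := by
  obtain ⟨x, hx, hx'⟩ := SetLike.not_le_iff_exists.1 fun hle => hne (Place.eq_of_le hle)
  obtain ⟨s, hs, hs1, hs2⟩ := h.exists_mul_mem P hP hx
  refine ⟨s, hs, hs1, ?_⟩
  by_contra hc
  have h0 : s ≠ 0 := fun h0 => hc (h0 ▸ Q.O.nonunits.zero_mem)
  have := mul_mem (Q.inv_mem_of_notMem_nonunits hc) (hs2 Q hQ)
  rw [inv_mul_cancel_left₀ h0] at this
  exact hx' this

/-- The elements of the ring of the chart which do not vanish at `P`. -/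
def unitsAt (u : F) (P : Place k F) (hP : u ∈ P.O) : Submonoid F where
  carrier := {s | s ∈ Ou k u ∧ s ∉ P.O.nonunits}
  one_mem' := ⟨one_mem _, by simp [P.mem_nonunits_iff]⟩
  mul_mem' := fun {a b} ha hb => ⟨mul_mem ha.1 hb.1, by
    obtain ⟨a0, a1⟩ := P.ord_eq_zero_of_notMem (ha.1 P hP) ha.2
    obtain ⟨b0, b1⟩ := P.ord_eq_zero_of_notMem (hb.1 P hP) hb.2
    simp [P.mem_nonunits_iff, P.ord_mul a0 b0, a0, b0, a1, b1]⟩

theorem approx (h : Chart K0 u) (D : Divisor k F) {P : Place k F} (hP : u ∈ P.O) {x : F}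
    (hx : x ∈ P.pw (-D P)) : ∃ s ∈ Ou k u, s ∉ P.O.nonunits ∧ s * x ∈ Iu u D := by
  obtain ⟨s, hs, hs'⟩ := exists_mul_mem_Iu u (unitsAt u P hP) (fun s hs => hs.1) D x
    fun Q hQ hQ' => by
      obtain ⟨s, h1, h2, h3⟩ := h.separate hP hQ (by rintro rfl; exact hQ' hx)
      exact ⟨s, ⟨h1, h2⟩, h3⟩
  exact ⟨s, hs.1, hs.2, hs'⟩

theorem exists_ord_eq (h : Chart K0 u) (D : Divisor k F) {P : Place k F} (hP : u ∈ P.O) :
    ∃ x ∈ Iu u D, x ≠ 0 ∧ P.ord x = -D P := by
  obtain ⟨z, z0, z1⟩ := P.exists_ord (-D P)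
  obtain ⟨s, hs, hs1, hs2⟩ := h.approx D hP (P.mem_pw_of_le z1.ge)
  obtain ⟨s0, s1⟩ := P.ord_eq_zero_of_notMem (hs P hP) hs1
  exact ⟨s * z, hs2, mul_ne_zero s0 z0, by rw [P.ord_mul s0 z0, s1, z1, zero_add]⟩

omit [IsFF k F] in
theorem exists_inv_mod (h : Chart K0 u) {P : Place k F} (hP : u ∈ P.O) {s : F} (hs : s ∈ Ou k u)
    (hs1 : s ∉ P.O.nonunits) : ∃ t ∈ Ou k u, 1 - t * s ∈ P.O.nonunits := by
  obtain ⟨t, i, hi, e⟩ := (h.cen_isMaximal P hP).exists_inv (x := ⟨s, hs⟩) hs1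
  refine ⟨t, t.2, ?_⟩
  have : (1 : F) - t * s = i := by
    have := congrArg Subtype.val e
    simp only [Subalgebra.coe_add, Subalgebra.coe_mul, Subalgebra.coe_one] at this
    rw [← this]; ring
  rw [this]; exact hi

theorem approx' (h : Chart K0 u) (D : Divisor k F) {P : Place k F} (hP : u ∈ P.O) {x : F}
    (hx : x ∈ P.pw (-D P)) : ∃ y ∈ Iu u D, x - y ∈ P.pw (-D P + 1) := by
  obtain ⟨s, hs, hs1, hs2⟩ := h.approx D hP hx
  obtain ⟨t, ht, ht1⟩ := h.exists_inv_mod hP hs hs1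
  refine ⟨t * (s * x), mul_mem_Iu_of_mem ht hs2, ?_⟩
  have := P.mul_mem_pw (P.mem_pw_one.2 ht1) hx
  rw [add_comm] at this
  have e : x - t * (s * x) = (1 - t * s) * x := by ring
  rw [e]; exact this

omit [IsFF k F] in
theorem fg (h : Chart K0 u) : (Ou k u).FG := by
  classical
  obtain ⟨s, hs, hs'⟩ := h.ded.2.2.1
  refine ⟨insert u s, le_antisymm (Algebra.adjoin_le ?_) fun x hx => ?_⟩
  · intro x hx
    rcases Finset.mem_insert.1 hx with rfl | hx
    · exact self_mem_Ou _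
    · exact hs x hx
  · have hA : Algebra.adjoin k {u} ≤ Algebra.adjoin k ((insert u s : Finset F) : Set F) :=
      Algebra.adjoin_mono (by simp)
    refine Submodule.span_induction (p := fun x _ =>
      x ∈ Algebra.adjoin k ((insert u s : Finset F) : Set F)) ?_ ?_ ?_ ?_ (hs' x hx)
    · exact fun y hy => Algebra.subset_adjoin (by simp [Finset.mem_coe.1 hy])
    · exact zero_mem _
    · exact fun _ _ _ _ => add_mem
    · exact fun a y _ hy => mul_mem (hA a.2) hy

theorem finite_residue (h : Chart K0 u) {P : Place k F} (hP : u ∈ P.O) :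
    Module.Finite k (IsLocalRing.ResidueField P.O) := by
  have : Algebra.FiniteType k (Ou k u) := (Subalgebra.fg_iff_finiteType _).1 h.fg
  let i : Ou k u →ₐ[k] P.O :=
    { toFun := fun a => ⟨a, a.2 P hP⟩
      map_one' := rfl
      map_mul' := fun _ _ => rfl
      map_zero' := rfl
      map_add' := fun _ _ => rfl
      commutes' := fun _ => rfl }
  let f := (IsScalarTower.toAlgHom k P.O (IsLocalRing.ResidueField P.O)).comp i
  have hf : Function.Surjective f := by
    intro c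
    obtain ⟨x, rfl⟩ := IsLocalRing.residue_surjective c
    obtain ⟨y, hy, hy'⟩ := h.approx' 0 hP (x := x) (by simp [P.mem_pw_zero])
    refine ⟨⟨y, mem_Iu_zero.1 hy⟩, ?_⟩
    show IsLocalRing.residue P.O ⟨y, _⟩ = _
    symm
    rw [← sub_eq_zero, ← map_sub, IsLocalRing.residue_eq_zero_iff,
      ← ValuationSubring.coe_mem_nonunits_iff]
    simpa [P.mem_pw_one] using hy'
  have : Algebra.FiniteType k (IsLocalRing.ResidueField P.O) := .of_surjective f hf
  exact finite_of_finite_type_of_isJacobsonRing k _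

end Chart

instance (P : Place k F) : Module.Finite k (IsLocalRing.ResidueField P.O) := by
  obtain ⟨K0, u, h⟩ := IsFF.ex (k := k) (F := F)
  rcases P.O.mem_or_inv_mem u with hu | hu
  · exact h.finite_residue hu
  · exact h.inv.finite_residue hu

theorem Place.deg_pos (P : Place k F) : 0 < P.deg := Module.finrank_pos

theorem Place.exists_aeval_mem (P : Place k F) {x : F} (hx : x ∈ P.O) :
    ∃ p : k[X], p ≠ 0 ∧ aeval x p ∈ P.O.nonunits := by
  obtain ⟨p, hp, hp'⟩ := IsAlgebraic.of_finite k (IsLocalRing.residue P.O ⟨x, hx⟩)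
  refine ⟨p, hp, ?_⟩
  have h1 : IsLocalRing.residue P.O (aeval (⟨x, hx⟩ : P.O) p) = 0 := by
    rw [← hp']
    exact (aeval_algHom_apply (IsScalarTower.toAlgHom k P.O (IsLocalRing.ResidueField P.O))
      ⟨x, hx⟩ p).symm
  rw [IsLocalRing.residue_eq_zero_iff, ← ValuationSubring.coe_mem_nonunits_iff] at h1
  have h2 : aeval x p = ((aeval (⟨x, hx⟩ : P.O) p : P.O) : F) :=
    aeval_algHom_apply (IsScalarTower.toAlgHom k P.O F) (⟨x, hx⟩ : P.O) p
  rw [h2]; exact h1

theorem exists_aeval_mul_mem (u : F)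
    (D : Divisor k F) (x : F) : ∃ p : k[X], p ≠ 0 ∧ aeval u p * x ∈ Iu u D := by
  obtain ⟨s, ⟨p, hp, rfl⟩, hs⟩ := exists_mul_mem_Iu u
    ((nonZeroDivisors k[X]).map (aeval u : k[X] →ₐ[k] F)) (by
      rintro s ⟨p, -, rfl⟩; exact aeval_mem_Ou u p) D x fun Q hQ _ => by
      obtain ⟨p, hp, hp'⟩ := Q.exists_aeval_mem hQ
      exact ⟨_, ⟨p, mem_nonZeroDivisors_of_ne_zero hp, rfl⟩, hp'⟩
  exact ⟨p, nonZeroDivisors.ne_zero hp, hs⟩

/-- The leading coefficient at `P`, relative to a function `y` of order `-n`. -/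
noncomputable def Place.lead (P : Place k F) {n : ℤ} {y : F} (hy : y ∈ P.pw (-n)) :
    P.pw n →ₗ[k] IsLocalRing.ResidueField P.O :=
  (IsScalarTower.toAlgHom k P.O (IsLocalRing.ResidueField P.O)).toLinearMap ∘ₗ
    { toFun := fun x => ⟨y * x, P.mem_pw_zero.1 (by simpa using P.mul_mem_pw hy x.2)⟩
      map_add' := fun a b => Subtype.ext (mul_add _ _ _)
      map_smul' := fun c a => Subtype.ext (by
        show y * (c • (a : F)) = algebraMap k F c * (y * a)
        rw [Algebra.smul_def]; ring) }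

theorem Place.lead_eq_zero_iff (P : Place k F) {n : ℤ} {y : F} (hy : y ∈ P.pw (-n)) (h0 : y ≠ 0)
    (h1 : P.ord y = -n) (x : P.pw n) : P.lead hy x = 0 ↔ (x : F) ∈ P.pw (n + 1) := by
  show IsLocalRing.residue P.O ⟨y * x, _⟩ = 0 ↔ _
  rw [IsLocalRing.residue_eq_zero_iff, ← ValuationSubring.coe_mem_nonunits_iff,
    ← P.mem_pw_one, P.mul_mem_pw_iff h0, h1, sub_neg_eq_add, add_comm]

theorem Place.lead_surjective (P : Place k F) {n : ℤ} {y : F} (hy : y ∈ P.pw (-n)) (h0 : y ≠ 0)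
    (h1 : P.ord y = -n) : Function.Surjective (P.lead hy) := by
  intro c
  obtain ⟨x, rfl⟩ := IsLocalRing.residue_surjective c
  refine ⟨⟨y⁻¹ * x, ?_⟩, ?_⟩
  · rw [P.mul_mem_pw_iff (inv_ne_zero h0), P.ord_inv, h1]
    simp [P.mem_pw_zero]
  · show IsLocalRing.residue P.O ⟨y * (y⁻¹ * x), _⟩ = _
    congr 1
    exact Subtype.ext (mul_inv_cancel_left₀ h0 _)

end Pool.Agent.P.MP_a2beea_nt.RR
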