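import Pool.Agent.P.MP_a2beea_nt.RR.Div

/-!
Normal bases in the sense of Dedekind and Weber.
-/

namespace Pool.Agent.P.MP_a2beea_nt.RR

open Polynomial IntermediateField Module

variable {k F : Type*} [Field k] [Field F] [Algebra k F] [IsFF k F]

theorem pow_mem_pw (u : F) (P : Place k F) {i : ℕ} {j : ℤ} (hij : (i : ℤ) ≤ j) :
    u ^ i ∈ P.pw (-(j * poleD k u P)) := by
  refine P.mem_pw_of_le ?_
  have h1 := poleD_nonneg (k := k) u P
  have h2 : -P.ord u ≤ poleD k u P := le_max_right _ _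
  rw [P.ord_pow]
  nlinarith [Int.natCast_nonneg i]

theorem aeval_mem_pw (u : F) (P : Place k F) {p : k[X]} {j : ℤ}
    (hp : p = 0 ∨ (p.natDegree : ℤ) ≤ j) : aeval u p ∈ P.pw (-(j * poleD k u P)) := by
  rcases hp with rfl | hp
  · simp
  rw [aeval_eq_sum_range]
  refine Submodule.sum_mem _ fun i hi => Submodule.smul_mem _ _ (pow_mem_pw u P ?_)
  have := Finset.mem_range.1 hi
  omega

theorem eraseLead_le (p : k[X]) :
    p.eraseLead = 0 ∨ (p.eraseLead.natDegree : ℤ) ≤ p.natDegree - 1 := by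
  rcases eraseLead_natDegree_lt_or_eraseLead_eq_zero p with h | h
  · right; omega
  · exact Or.inl h

theorem ord_aeval {u : F} {P : Place k F} (hP : u ∉ P.O) {p : k[X]} (hp : p ≠ 0) :
    aeval u p ≠ 0 ∧ P.ord (aeval u p) = -(p.natDegree * poleD k u P) := by
  obtain ⟨h1, h2⟩ := poleD_of_notMem hP
  have hu : u ≠ 0 := by rintro rfl; exact hP (zero_mem _)
  have e : aeval u p = p.leadingCoeff • u ^ p.natDegree + aeval u p.eraseLead := by
    conv_lhs => rw [← eraseLead_add_monomial_natDegree_leadingCoeff p]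
    rw [map_add, aeval_monomial, Algebra.smul_def, add_comm]
  have hl : p.leadingCoeff ≠ 0 := leadingCoeff_ne_zero.2 hp
  have h3 : P.ord (p.leadingCoeff • u ^ p.natDegree) = -(p.natDegree * poleD k u P) := by
    rw [P.ord_smul hl, P.ord_pow, h1]; ring
  have := P.ord_add_of_lt (x := p.leadingCoeff • u ^ p.natDegree) (y := aeval u p.eraseLead)
    (smul_ne_zero hl (pow_ne_zero _ hu))
    (P.pw_mono (by rw [h3]; nlinarith) (aeval_mem_pw u P (eraseLead_le p)))
  rw [e, ← h3]; exact this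

/-- The functions with poles bounded by `D + n (u)_∞`. -/
noncomputable def Ln (u : F) (D : Divisor k F) (n : ℤ) : Submodule k F := LL (D + n • poleD k u)

theorem mem_Ln {u : F} {D : Divisor k F} {n : ℤ} {x : F} :
    x ∈ Ln u D n ↔ ∀ P : Place k F, x ∈ P.pw (-D P - n * poleD k u P) := by
  rw [Ln, mem_LL]
  simp only [Finsupp.add_apply, Finsupp.smul_apply, smul_eq_mul, neg_add, sub_eq_add_neg]

theorem Ln_zero (u : F) (D : Divisor k F) : Ln u D 0 = LL D := by simp [Ln]

theorem Ln_mono (u : F) (D : Divisor k F) {m n : ℤ} (h : m ≤ n) : Ln u D m ≤ Ln u D n :=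
  fun _ hx => mem_Ln.2 fun P => P.pw_mono (by nlinarith [poleD_nonneg (k := k) u P])
    (mem_Ln.1 hx P)

theorem Ln_le_Iu (u : F) (D : Divisor k F) (n : ℤ) : Ln u D n ≤ Iu u D := fun _ hx =>
  mem_Iu.2 fun P hP => by simpa only [poleD_of_mem hP, mul_zero, sub_zero] using mem_Ln.1 hx P

theorem exists_mem_Ln {u : F} {D : Divisor k F} {x : F} (hx : x ∈ Iu u D) :
    ∃ n : ℕ, x ∈ Ln u D n := by
  classical
  have hf := finite_poles (k := k) u
  refine ⟨hf.toFinset.sup fun P => (-D P - P.ord x).toNat, mem_Ln.2 fun P => ?_⟩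
  by_cases hP : u ∈ P.O
  · simpa only [poleD_of_mem hP, mul_zero, sub_zero] using mem_Iu.1 hx P hP
  · refine P.mem_pw_of_le ?_
    have h1 := (poleD_of_notMem hP).2
    have h2 : (-D P - P.ord x).toNat ≤ hf.toFinset.sup fun P => (-D P - P.ord x).toNat :=
      Finset.le_sup (f := fun P => (-D P - P.ord x).toNat) (hf.mem_toFinset.2 hP)
    have h3 := Int.self_le_toNat (-D P - P.ord x)
    have h4 : ((-D P - P.ord x).toNat : ℤ) ≤
      (hf.toFinset.sup fun P => (-D P - P.ord x).toNat : ℕ) := by exact_mod_cast h2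
    nlinarith [Int.natCast_nonneg (hf.toFinset.sup fun P => (-D P - P.ord x).toNat)]

theorem aeval_mul_mem_Ln {u : F} {D : Divisor k F} {n j : ℤ} {x : F} (hx : x ∈ Ln u D n)
    {p : k[X]} (hp : p = 0 ∨ (p.natDegree : ℤ) ≤ j) : aeval u p * x ∈ Ln u D (n + j) :=
  mem_Ln.2 fun P => by
    have := P.mul_mem_pw (aeval_mem_pw u P hp) (mem_Ln.1 hx P)
    exact P.pw_mono (le_of_eq (by ring)) this

theorem mem_Ln_of_aeval_mul {u : F} {D : Divisor k F} {n : ℤ} {x : F} (hx : x ∈ Iu u D)
    {p : k[X]} (hp : p ≠ 0) (h : aeval u p * x ∈ Ln u D (n + p.natDegree)) : x ∈ Ln u D n :=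
  mem_Ln.2 fun P => by
    by_cases hP : u ∈ P.O
    · simpa only [poleD_of_mem hP, mul_zero, sub_zero] using mem_Iu.1 hx P hP
    · obtain ⟨h0, h1⟩ := ord_aeval hP hp
      have := (P.mul_mem_pw_iff h0).1 (mem_Ln.1 h P)
      exact P.pw_mono (le_of_eq (by rw [h1]; ring)) this

theorem mul_mem_Ln {u : F} {D D' : Divisor k F} {m n : ℤ} {x y : F} (hx : x ∈ Ln u D m)
    (hy : y ∈ Ln u D' n) : x * y ∈ Ln u (D + D') (m + n) := by
  have := mul_mem_LL hx hy
  rw [Ln, add_smul, add_add_add_comm]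
  exact this

theorem zpow_mul_mem_Ln_inv {u : F} (hu : u ≠ 0) {D : Divisor k F} {n : ℤ} {x : F} :
    u ^ (-n) * x ∈ Ln u⁻¹ D n ↔ x ∈ Ln u D n := by
  rw [Ln, Ln, mul_mem_LL_iff (zpow_ne_zero _ hu), poleD_inv, divF_zpow, smul_add, neg_smul,
    add_assoc, add_neg_cancel_right]

theorem mem_Ln_iff {u : F} (hu : u ≠ 0) {D : Divisor k F} {n : ℤ} {x : F} :
    x ∈ Ln u D n ↔ x ∈ Iu u D ∧ u ^ (-n) * x ∈ Iu u⁻¹ D :=
  ⟨fun h => ⟨Ln_le_Iu _ _ _ h, Ln_le_Iu _ _ _ ((zpow_mul_mem_Ln_inv hu).2 h)⟩, fun h => by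
    refine mem_Ln.2 fun P => ?_
    by_cases hP : u ∈ P.O
    · simpa only [poleD_of_mem hP, mul_zero, sub_zero] using mem_Iu.1 h.1 P hP
    · have := (P.mul_mem_pw_iff (zpow_ne_zero _ hu)).1
        (mem_Iu.1 h.2 P ((P.O.mem_or_inv_mem u).resolve_left hP))
      exact P.pw_mono (le_of_eq (by rw [P.ord_zpow, (poleD_of_notMem hP).1]; ring)) this⟩

omit [IsFF k F] in
theorem zpow_mul_aeval_mem {u : F} (hu : u ≠ 0) {p : k[X]} {j : ℤ}
    (hp : p = 0 ∨ (p.natDegree : ℤ) ≤ j) : u ^ (-j) * aeval u p ∈ Algebra.adjoin k {u⁻¹} := by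
  rcases hp with rfl | hp
  · simp
  rw [aeval_eq_sum_range, Finset.mul_sum]
  refine Subalgebra.sum_mem _ fun i hi => ?_
  have hi' := Finset.mem_range.1 hi
  obtain ⟨m, hm⟩ : ∃ m : ℕ, j = i + m := ⟨(j - i).toNat, by omega⟩
  have : u ^ (-j) * u ^ i = u⁻¹ ^ m := by
    rw [hm, ← zpow_natCast, ← zpow_add₀ hu, inv_pow, ← zpow_natCast, ← zpow_neg]
    congr 1; ring
  rw [mul_smul_comm, this]
  exact Subalgebra.smul_mem _ (pow_mem (Algebra.self_mem_adjoin_singleton k _) m) _

theorem natDegree_le_of_mem {u : F} (hu : Transcendental k u) {p : k[X]} {j : ℤ}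
    (h : u ^ (-j) * aeval u p ∈ Algebra.adjoin k {u⁻¹}) : p = 0 ∨ (p.natDegree : ℤ) ≤ j := by
  by_cases hp : p = 0
  · exact Or.inl hp
  right
  obtain ⟨P, hP⟩ := exists_pole hu
  have hu0 : u ≠ 0 := by rintro rfl; exact hP (zero_mem _)
  obtain ⟨h0, h1⟩ := ord_aeval hP hp
  obtain ⟨h2, h3⟩ := poleD_of_notMem hP
  have h4 := P.mem_iff.1 (adjoin_le_Ou _ h P ((P.O.mem_or_inv_mem u).resolve_left hP))
  rw [P.ord_mul (zpow_ne_zero _ hu0) h0, P.ord_zpow, h1] at h4
  have h5 : P.ord u = -poleD k u P := by omega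
  rw [h5] at h4
  nlinarith

namespace Chart

variable {K0 : IntermediateField k F} {u : F}

omit [IsFF k F] in
theorem trace_mul (_h : Chart K0 u) {c : F} (hc : c ∈ K0) (x : F) :
    ((Algebra.trace K0 F (c * x) : K0) : F) = c * (Algebra.trace K0 F x : K0) := by
  have : c * x = (⟨c, hc⟩ : K0) • x := rfl
  rw [this, map_smul]; rfl

theorem exists_basis (h : Chart K0 u) (D : Divisor k F) :
    ∃ (e : Basis (Fin (finrank K0 F)) K0 F) (d : Fin (finrank K0 F) → ℤ),
      ∀ i, e i ∈ Ln u D (d i) := by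
  have := h.fin
  let b := Module.finBasis K0 F
  choose p hp hp' using fun i => exists_aeval_mul_mem u D (b i)
  choose n hn using fun i => exists_mem_Ln (hp' i)
  refine ⟨b.isUnitSMul (w := fun i => ⟨aeval u (p i), h.aeval_mem _⟩) fun i =>
    Ne.isUnit fun h0 => h.aeval_ne_zero (hp i) (congrArg Subtype.val h0),
    fun i => n i, fun i => ?_⟩
  rw [Basis.isUnitSMul_apply]
  exact hn i

theorem exists_Ln_eq_bot (h : Chart K0 u) (D : Divisor k F) : ∃ n, Ln u D n = ⊥ := by
  have := h.fin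
  have := h.sep
  obtain ⟨e, d, hd⟩ := h.exists_basis (-D)
  obtain ⟨N, hN⟩ := Finite.exists_le d
  refine ⟨-1 - N, eq_bot_iff.2 fun x hx => ?_⟩
  have key : ∀ i, Algebra.trace K0 F (x * e i) = 0 := by
    intro i
    have h1 := mul_mem_Ln hx (Ln_mono u _ (hN i) (hd i))
    rw [add_neg_cancel, sub_add_cancel, mem_Ln_iff h.ne_zero, mem_Iu_zero, mem_Iu_zero] at h1
    obtain ⟨p, hp⟩ := mem_adjoin_iff.1 (h.ded.2.2.2 _ h1.1)
    have h2 := h.inv.ded.2.2.2 _ h1.2
    rw [h.trace_mul (zpow_mem h.self_mem _), ← hp] at h2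
    rcases natDegree_le_of_mem h.trans h2 with h3 | h3
    · rw [h3, map_zero] at hp
      exact Subtype.ext hp.symm
    · omega
  have : e.traceDual.repr x = 0 := by
    ext i
    rw [Basis.traceDual_repr_apply, Algebra.traceForm_apply, key]; rfl
  exact e.traceDual.repr.map_eq_zero_iff.1 this

/-- The defining properties of a normal basis. -/
structure IsNB (u : F) (D : Divisor k F) {ι : Type*} [Fintype ι] (e : ι → F) (d : ι → ℤ) :
    Prop where
  mem : ∀ i, e i ∈ Ln u D (d i)
  span : ∀ x ∈ Iu u D, ∃ a : ι → k[X], x = ∑ i, aeval u (a i) * e i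
  deg : ∀ (a : ι → k[X]) (n : ℤ), ∑ i, aeval u (a i) * e i ∈ Ln u D n →
    ∀ i, a i = 0 ∨ ((a i).natDegree : ℤ) ≤ n - d i

theorem exists_min_basis (h : Chart K0 u) (D : Divisor k F) :
    ∃ (e : Basis (Fin (finrank K0 F)) K0 F) (d : Fin (finrank K0 F) → ℤ),
      (∀ i, e i ∈ Ln u D (d i)) ∧ ∀ (c : Fin (finrank K0 F) → F) (j : Fin (finrank K0 F)),
        (∀ i, c i ∈ K0) → c j ≠ 0 → ∑ i, c i * e i ∉ Ln u D (d j - 1) := by
  classical
  obtain ⟨n0, hn0⟩ := h.exists_Ln_eq_bot D
  obtain ⟨s, ⟨e, d, hd, rfl⟩, hmin⟩ := Int.exists_least_of_bdd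
    (P := fun s => ∃ (e : Basis (Fin (finrank K0 F)) K0 F) (d : Fin (finrank K0 F) → ℤ),
      (∀ i, e i ∈ Ln u D (d i)) ∧ ∑ i, d i = s)
    ⟨∑ _i : Fin (finrank K0 F), n0, by
      rintro _ ⟨e, d, hd, rfl⟩
      refine Finset.sum_le_sum fun i _ => ?_
      by_contra hc
      have := Ln_mono u D (not_le.1 hc).le (hd i)
      rw [hn0] at this
      exact e.ne_zero i this⟩
    (by obtain ⟨e, d, hd⟩ := h.exists_basis D; exact ⟨_, e, d, hd, rfl⟩)
  refine ⟨e, d, hd, fun c j hc hj hv => ?_⟩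
  set v := ∑ i, c i * e i with hv'
  have hsp : ⊤ ≤ Submodule.span K0 (Set.range (Function.update e j v)) := by
    rw [← e.span_eq, Submodule.span_le]
    have hne : ∀ i, i ≠ j → e i ∈ Submodule.span K0 (Set.range (Function.update e j v)) :=
      fun i hi => Submodule.subset_span ⟨i, Function.update_of_ne hi _ _⟩
    rintro _ ⟨i, rfl⟩
    by_cases hi : i = j
    · subst hi
      have h1 : v ∈ Submodule.span K0 (Set.range (Function.update e i v)) :=
        Submodule.subset_span ⟨i, Function.update_self _ _ _⟩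
      have h2 : ∑ l ∈ Finset.univ.erase i, c l * e l ∈
          Submodule.span K0 (Set.range (Function.update e i v)) :=
        Submodule.sum_mem _ fun l hl =>
          Submodule.smul_mem _ (⟨c l, hc l⟩ : K0) (hne l (Finset.ne_of_mem_erase hl))
      have h3 : e i = (c i)⁻¹ * (v - ∑ l ∈ Finset.univ.erase i, c l * e l) := by
        rw [hv', ← Finset.add_sum_erase _ _ (Finset.mem_univ i), add_sub_cancel_right,
          inv_mul_cancel_left₀ hj]
      rw [h3]
      exact Submodule.smul_mem _ (⟨(c i)⁻¹, inv_mem (hc i)⟩ : K0) (sub_mem h1 h2)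
    · exact hne i hi
  have := hmin _ ⟨basisOfTopLeSpanOfCardEqFinrank _ hsp (Fintype.card_fin _),
    Function.update d j (d j - 1), fun i => by
      rw [coe_basisOfTopLeSpanOfCardEqFinrank]
      by_cases hi : i = j
      · subst hi; simpa using hv
      · simpa [Function.update_of_ne hi] using hd i, rfl⟩
  rw [Finset.sum_update_of_mem (Finset.mem_univ j), Finset.sdiff_singleton_eq_erase,
    ← Finset.add_sum_erase _ _ (Finset.mem_univ j)] at this
  omega

theorem exists_isNB (h : Chart K0 u) (D : Divisor k F) :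
    ∃ (e : Basis (Fin (finrank K0 F)) K0 F) (d : Fin (finrank K0 F) → ℤ), IsNB u D e d := by
  classical
  obtain ⟨e, d, hd, hmin⟩ := h.exists_min_basis D
  have hI : ∀ a : Fin (finrank K0 F) → k[X], ∑ i, aeval u (a i) * e i ∈ Iu u D := fun a =>
    Submodule.sum_mem _ fun i _ => mul_mem_Iu_of_mem (aeval_mem_Ou u _) (Ln_le_Iu _ _ _ (hd i))
  have hL : ∀ (a : Fin (finrank K0 F) → k[X]) (n : ℤ),
      (∀ i, a i = 0 ∨ ((a i).natDegree : ℤ) ≤ n - d i) → ∑ i, aeval u (a i) * e i ∈ Ln u D n :=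
    fun a n ha => Submodule.sum_mem _ fun i _ => by
      simpa using aeval_mul_mem_Ln (hd i) (ha i)
  refine ⟨e, d, hd, fun x hx => ?_, fun a n ha => ?_⟩
  · choose p q hq hpq using fun i => h.exists_div (e.repr x i).2
    set b := ∏ i, q i with hb
    have hb0 : b ≠ 0 := Finset.prod_ne_zero_iff.2 fun i _ => hq i
    have hbu := h.aeval_ne_zero hb0
    have : ∀ i, ∃ r : k[X], aeval u b * (e.repr x i : F) = aeval u r := fun i => by
      obtain ⟨t, ht⟩ : q i ∣ b := Finset.dvd_prod_of_mem _ (Finset.mem_univ i)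
      refine ⟨t * p i, ?_⟩
      have := h.aeval_ne_zero (hq i)
      rw [hpq, ht, map_mul, map_mul]; field_simp
    choose r hr using this
    have hx' : x = ∑ i, (e.repr x i : F) * e i := (e.sum_repr x).symm
    have e1 : aeval u b * (x - ∑ i, aeval u (r i / b) * e i) = ∑ i, aeval u (r i % b) * e i := by
      conv_lhs => rw [hx']
      rw [← Finset.sum_sub_distrib, Finset.mul_sum]
      refine Finset.sum_congr rfl fun i _ => ?_
      rw [mul_sub, ← mul_assoc, hr, ← mul_assoc, ← map_mul, ← sub_mul, ← map_sub,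
        EuclideanDomain.mod_eq_sub_mul_div]
    by_cases hz : ∀ i, r i % b = 0
    · refine ⟨fun i => r i / b, ?_⟩
      simp only [hz, map_zero, zero_mul, Finset.sum_const_zero, mul_eq_zero, hbu, false_or] at e1
      exact sub_eq_zero.1 e1
    · exfalso
      push Not at hz
      obtain ⟨j, hj, hjm⟩ := Finset.exists_max_image (Finset.univ.filter fun i => r i % b ≠ 0) d
        (by obtain ⟨i, hi⟩ := hz; exact ⟨i, by simpa using hi⟩)
      have hj0 : r j % b ≠ 0 := by simpa using hj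
      have h1 := hL (fun i => r i % b) (d j - 1 + b.natDegree) fun i => by
        by_cases hi : r i % b = 0
        · exact Or.inl hi
        · right
          have h2 := hjm i (by simpa using hi)
          have h3 : (r i % b).natDegree < b.natDegree :=
            natDegree_lt_natDegree hi (degree_mod_lt _ hb0)
          omega
      rw [← e1] at h1
      have h2 := mem_Ln_of_aeval_mul (sub_mem hx (hI _)) hb0 h1
      refine hmin (fun i => (aeval u b)⁻¹ * aeval u (r i % b)) j
        (fun i => mul_mem (inv_mem (h.aeval_mem _)) (h.aeval_mem _))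
        (mul_ne_zero (inv_ne_zero hbu) (h.aeval_ne_zero hj0)) ?_
      simp only [mul_assoc]
      rw [← Finset.mul_sum, ← e1, inv_mul_cancel_left₀ hbu]
      exact h2
  · by_contra hc
    push Not at hc
    obtain ⟨i0, hi0, hi0'⟩ := hc
    obtain ⟨i1, hi1, hM⟩ := Finset.exists_max_image (Finset.univ.filter fun i => a i ≠ 0)
      (fun i => ((a i).natDegree : ℤ) + d i) ⟨i0, by simpa using hi0⟩
    set M := ((a i1).natDegree : ℤ) + d i1 with hMdef
    have hM' : ∀ i, a i ≠ 0 → ((a i).natDegree : ℤ) + d i ≤ M := fun i hi =>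
      hM i (by simpa using hi)
    have hnM : n < M := by have := hM' i0 hi0; omega
    obtain ⟨j, hj, hjm⟩ := Finset.exists_max_image
      (Finset.univ.filter fun i => a i ≠ 0 ∧ ((a i).natDegree : ℤ) + d i = M) d
      ⟨i1, Finset.mem_filter.2 ⟨Finset.mem_univ _, (Finset.mem_filter.1 hi1).2, rfl⟩⟩
    obtain ⟨hj0, hjM⟩ : a j ≠ 0 ∧ ((a j).natDegree : ℤ) + d j = M := by simpa using hj
    let w : Fin (finrank K0 F) → k[X] := fun i =>
      if a i ≠ 0 ∧ ((a i).natDegree : ℤ) + d i = M then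
        monomial (d j - d i).toNat (a i).leadingCoeff else 0
    let b : Fin (finrank K0 F) → k[X] := fun i =>
      if a i ≠ 0 ∧ ((a i).natDegree : ℤ) + d i = M then (a i).eraseLead else a i
    have hwb : ∀ i, X ^ (a j).natDegree * w i = a i - b i := fun i => by
      simp only [w, b]
      split_ifs with hi
      · have h1 := hjm i (by simpa using hi)
        have h2 : (d j - d i).toNat + (a j).natDegree = (a i).natDegree := by omega
        rw [X_pow_mul_monomial, h2, eq_sub_iff_add_eq, add_comm,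
          eraseLead_add_monomial_natDegree_leadingCoeff]
      · simp
    have h1 := hL b (M - 1) fun i => by
      simp only [b]
      split_ifs with hi
      · exact (eraseLead_le (a i)).imp id fun h => by omega
      · by_cases h0 : a i = 0
        · exact Or.inl h0
        · right
          have := hM' i h0
          have : ((a i).natDegree : ℤ) + d i ≠ M := fun h' => hi ⟨h0, h'⟩
          omega
    have h2 := sub_mem (Ln_mono u D (by omega : n ≤ M - 1) ha) h1
    have h3 : ∑ i, aeval u (a i) * e i - ∑ i, aeval u (b i) * e i =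
        aeval u (X ^ (a j).natDegree : k[X]) * ∑ i, aeval u (w i) * e i := by
      rw [← Finset.sum_sub_distrib, Finset.mul_sum]
      refine Finset.sum_congr rfl fun i _ => ?_
      rw [← mul_assoc, ← map_mul, hwb, map_sub, sub_mul]
    rw [h3] at h2
    refine hmin (fun i => aeval u (w i)) j (fun i => h.aeval_mem _) (h.aeval_ne_zero ?_)
      (mem_Ln_of_aeval_mul (hI w) (p := X ^ (a j).natDegree) (pow_ne_zero _ X_ne_zero) ?_)
    · simp only [w, if_pos (And.intro hj0 hjM)]
      simpa using hj0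
    · rw [natDegree_X_pow]
      exact Ln_mono u D (by omega) h2

end Chart

end Pool.Agent.P.MP_a2beea_nt.RR
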