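import Pool.Agent.P.MP_a2beea_nt.RR.Div

/-!
The Riemann-Roch property and the counting functions of a function field over a finite field.
-/

namespace Pool.Agent.P.MP_a2beea_nt.RR

open Polynomial IntermediateField

variable {k F : Type*} [Field k] [Field F] [Algebra k F] [IsFF k F]

/-- The Riemann-Roch theorem holds with genus `g` and canonical divisor `W`. -/
structure IsRR (g : ℕ) (W : Divisor k F) : Prop where
  fin : ∀ D : Divisor k F, FiniteDimensional k (LL D)
  eq : ∀ D : Divisor k F, (ell D : ℤ) - ell (W - D) = degD D + 1 - g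

theorem IsRR.degD_divF {g : ℕ} {W : Divisor k F} (h : IsRR g W) {x : F} (hx : x ≠ 0) :
    degD (divF k x) = 0 := by
  have h0 := h.eq 0
  have h1 := h.eq (0 + divF k x)
  rw [ell_add_divF _ hx, zero_add, sub_eq_add_neg W, ← divF_inv,
    ell_add_divF _ (inv_ne_zero hx)] at h1
  rw [sub_zero, map_zero] at h0
  omega

theorem IsRR.LL_eq_bot {g : ℕ} {W : Divisor k F} (h : IsRR g W) {D : Divisor k F}
    (hD : degD D < 0) : LL D = ⊥ := by
  rw [eq_bot_iff]
  intro x hx
  by_contra h0
  have h0 : x ≠ 0 := h0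
  have := degD_nonneg ((mem_LL_iff h0).1 hx)
  rw [map_add, h.degD_divF h0] at this
  omega

theorem IsRR.ell_eq_zero {g : ℕ} {W : Divisor k F} (h : IsRR g W) {D : Divisor k F}
    (hD : degD D < 0) : ell D = 0 := by
  rw [ell, h.LL_eq_bot hD, finrank_bot]

theorem LL_zero (hc : ∀ x : F, IsAlgebraic k x → x ∈ (algebraMap k F).range) :
    LL (0 : Divisor k F) = Submodule.span k {1} := by
  ext x
  rw [mem_LL, Submodule.mem_span_singleton]
  simp only [Finsupp.coe_zero, Pi.zero_apply, neg_zero, Place.mem_pw_zero]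
  constructor
  · intro h
    obtain ⟨c, rfl⟩ := hc x (isAlgebraic_of_forall_mem h)
    exact ⟨c, (Algebra.algebraMap_eq_smul_one c).symm⟩
  · rintro ⟨c, rfl⟩ P
    exact P.smul_mem c (one_mem _)

theorem ell_zero (hc : ∀ x : F, IsAlgebraic k x → x ∈ (algebraMap k F).range) :
    ell (0 : Divisor k F) = 1 := by
  rw [ell, LL_zero hc, finrank_span_singleton one_ne_zero]

theorem IsRR.degD_W {g : ℕ} {W : Divisor k F} (h : IsRR g W)
    (hc : ∀ x : F, IsAlgebraic k x → x ∈ (algebraMap k F).range) : degD W = 2 * g - 2 := by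
  have h0 := h.eq 0
  have h1 := h.eq W
  rw [sub_zero, map_zero, ell_zero hc] at h0
  rw [sub_self, ell_zero hc] at h1
  omega

theorem IsRR.ell_eq {g : ℕ} {W : Divisor k F} (h : IsRR g W) {D : Divisor k F}
    (hD : degD W < degD D) : (ell D : ℤ) = degD D + 1 - g := by
  have h1 := h.eq D
  rw [h.ell_eq_zero (D := W - D) (by rw [map_sub]; omega)] at h1
  simpa using h1

variable (k F) in
/-- The number of effective divisors of degree `n`. -/
noncomputable def Aeff (n : ℕ) : ℕ := {D : Divisor k F | 0 ≤ D ∧ degD D = n}.ncard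

variable (k F) in
/-- The sum of the degrees of the places whose degree divides `n`. -/
noncomputable def Npl (n : ℕ) : ℕ := ∑ᶠ P ∈ {P : Place k F | P.deg ∣ n}, P.deg

theorem finite_deg_dvd [Finite k] {n : ℕ} (hn : n ≠ 0) : {P : Place k F | P.deg ∣ n}.Finite := by
  obtain ⟨K0, u, h⟩ := IsFF.ex (k := k) (F := F)
  have := Fintype.ofFinite k
  have hp : (X ^ Fintype.card k ^ n - X : k[X]) ≠ 0 :=
    FiniteField.X_pow_card_pow_sub_X_ne_zero k hn Fintype.one_lt_card
  refine ((finite_poles (k := k) u).union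
    (finite_ord (k := k) (aeval u (X ^ Fintype.card k ^ n - X : k[X])))).subset fun P hP => ?_
  by_cases hu : u ∈ P.O
  · right
    obtain ⟨m, hm⟩ : P.deg ∣ n := hP
    have : Finite (IsLocalRing.ResidueField P.O) := Module.finite_of_finite k
    have := Fintype.ofFinite (IsLocalRing.ResidueField P.O)
    have hc : Fintype.card (IsLocalRing.ResidueField P.O) = Fintype.card k ^ P.deg :=
      Module.card_eq_pow_finrank
    have h1 : IsLocalRing.residue P.O (⟨u, hu⟩ ^ Fintype.card k ^ n - ⟨u, hu⟩) = 0 := by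
      rw [map_sub, map_pow, hm, pow_mul, ← hc, FiniteField.pow_card_pow, sub_self]
    rw [IsLocalRing.residue_eq_zero_iff, ← ValuationSubring.coe_mem_nonunits_iff,
      P.mem_nonunits_iff] at h1
    have h2 : ((⟨u, hu⟩ ^ Fintype.card k ^ n - ⟨u, hu⟩ : P.O) : F) =
        aeval u (X ^ Fintype.card k ^ n - X : k[X]) := by simp
    rw [h2] at h1
    exact (h1.resolve_left (h.aeval_ne_zero hp)).ne'
  · exact Or.inl hu

theorem finite_deg_le [Finite k] (d : ℕ) : {P : Place k F | P.deg ≤ d}.Finite :=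
  (finite_deg_dvd (Nat.factorial_ne_zero d)).subset fun P hP => Nat.dvd_factorial P.deg_pos hP

omit [IsFF k F] in
theorem mul_deg_le {D : Divisor k F} (hD : 0 ≤ D) (P : Place k F) : D P * P.deg ≤ degD D := by
  rw [degD_apply]
  by_cases h : P ∈ D.support
  · exact Finset.single_le_sum (f := fun P => D P * (P.deg : ℤ))
      (fun Q _ => mul_nonneg (hD Q) (Int.natCast_nonneg _)) h
  · rw [Finsupp.notMem_support_iff.1 h, zero_mul]
    exact Finset.sum_nonneg fun Q _ => mul_nonneg (hD Q) (Int.natCast_nonneg _)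

theorem finite_eff [Finite k] (n : ℤ) : {D : Divisor k F | 0 ≤ D ∧ degD D = n}.Finite := by
  classical
  let S := (finite_deg_le (k := k) (F := F) n.toNat).toFinset
  let D0 : Divisor k F := Finsupp.onFinset S (fun P => if P ∈ S then n else 0)
    fun P hP => by by_contra hc; exact hP (if_neg hc)
  refine (Set.finite_Icc 0 D0).subset fun D hD => ⟨hD.1, fun P => ?_⟩
  have h1 := mul_deg_le hD.1 P
  have h2 : (0 : ℤ) < P.deg := by exact_mod_cast P.deg_pos
  have h3 : 0 ≤ D P := hD.1 P
  rw [hD.2] at h1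
  show D P ≤ if P ∈ S then n else 0
  split_ifs with h
  · nlinarith
  · have h4 : ¬ P.deg ≤ n.toNat := fun h' => h ((Set.Finite.mem_toFinset _).2 h')
    by_contra h5
    have : (P.deg : ℤ) ≤ n := by nlinarith
    omega

end Pool.Agent.P.MP_a2beea_nt.RR
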