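import Pool.Agent.P.MP_a2beea_nt.RR.Chi
import Pool.Agent.P.MP_a2beea_nt.RR.ZDefs

/-!
The different divisor, duality, and the Riemann-Roch theorem.
-/

namespace Pool.Agent.P.MP_a2beea_nt.RR

open Polynomial IntermediateField Module

variable {k F : Type*} [Field k] [Field F] [Algebra k F]

/-- The trace to `K0`, as an element of `F`. -/
noncomputable def tr (K0 : IntermediateField k F) (x : F) : F := (Algebra.trace K0 F x : K0)

variable {K0 : IntermediateField k F} {u : F}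

theorem tr_mul {c : F} (hc : c ∈ K0) (x : F) : tr K0 (c * x) = c * tr K0 x := by
  have : c * x = (⟨c, hc⟩ : K0) • x := rfl
  rw [tr, this, map_smul]; rfl

theorem tr_sum {ι : Type*} (s : Finset ι) (f : ι → F) :
    tr K0 (∑ i ∈ s, f i) = ∑ i ∈ s, tr K0 (f i) := by
  simp [tr]

theorem tr_mem (x : F) : tr K0 x ∈ K0 := (Algebra.trace K0 F x).2

theorem sum_tr_mul [FiniteDimensional K0 F] [Algebra.IsSeparable K0 F] {ι : Type*} [Fintype ι]
    [DecidableEq ι] (e : Basis ι K0 F) (x : F) : x = ∑ i, tr K0 (x * e i) * e.traceDual i := by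
  conv_lhs => rw [← e.traceDual.sum_repr x]
  refine Finset.sum_congr rfl fun i _ => ?_
  rw [Basis.traceDual_repr_apply]; rfl

theorem tr_traceDual [FiniteDimensional K0 F] [Algebra.IsSeparable K0 F] {ι : Type*} [Fintype ι]
    [DecidableEq ι] (e : Basis ι K0 F) (i j : ι) :
    tr K0 (e.traceDual i * e j) = if j = i then 1 else 0 := by
  rw [tr, e.trace_traceDual_mul]
  split_ifs <;> rfl

theorem tr_sum_traceDual [FiniteDimensional K0 F] [Algebra.IsSeparable K0 F] {ι : Type*}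
    [Fintype ι] [DecidableEq ι] (e : Basis ι K0 F) {c : ι → F} (hc : ∀ i, c i ∈ K0) (j : ι) :
    tr K0 ((∑ i, c i * e.traceDual i) * e j) = c j := by
  rw [Finset.sum_mul, tr_sum]
  simp only [mul_assoc, tr_mul (hc _), tr_traceDual]
  simp

theorem Chart.dual_span (h : Chart K0 u) {ι : Type*} [Fintype ι] {f : ι → F} {V : Submodule k F}
    (hV : ∀ y, y ∈ V ↔ ∃ a : ι → k[X], y = ∑ i, aeval u (a i) * f i) (x : F) :
    (∀ y ∈ V, tr K0 (x * y) ∈ Algebra.adjoin k {u}) ↔
      ∀ i, tr K0 (x * f i) ∈ Algebra.adjoin k {u} := by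
  classical
  constructor
  · intro H i
    refine H _ ((hV _).2 ⟨Pi.single i 1, ?_⟩)
    rw [Finset.sum_eq_single i] <;> simp +contextual
  · intro H y hy
    obtain ⟨a, rfl⟩ := (hV y).1 hy
    rw [Finset.mul_sum, tr_sum]
    refine Subalgebra.sum_mem _ fun i _ => ?_
    rw [mul_left_comm, tr_mul (h.aeval_mem _)]
    exact mul_mem (mem_adjoin_iff.2 ⟨_, rfl⟩) (H i)

variable [IsFF k F]

/-- On the chart of `u`, the divisor `Δ` describes the trace dual of the ring of the chart. -/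
def IsDiff (K0 : IntermediateField k F) (u : F) (Δ : Divisor k F) : Prop :=
  ∀ x, x ∈ Iu u Δ ↔ ∀ y ∈ Ou k u, tr K0 (x * y) ∈ Algebra.adjoin k {u}

namespace Chart

theorem isDiff_of (h : Chart K0 u) {ι : Type*} [Fintype ι] {f : ι → F} (hf0 : ∀ i, f i ≠ 0)
    (hf1 : ∀ i, ∀ y ∈ Ou k u, tr K0 (f i * y) ∈ Algebra.adjoin k {u})
    (hf2 : ∀ x, (∀ y ∈ Ou k u, tr K0 (x * y) ∈ Algebra.adjoin k {u}) →
      ∃ c : ι → F, (∀ i, c i ∈ Ou k u) ∧ x = ∑ i, c i * f i) {Δ : Divisor k F}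
    (hΔ : ∀ P : Place k F, u ∈ P.O → (∀ i, -Δ P ≤ P.ord (f i)) ∧ ∃ i, P.ord (f i) = -Δ P) :
    IsDiff K0 u Δ := by
  intro x
  constructor
  · intro hx
    let J : Ideal (Ou k u) :=
      { carrier := {s | ∀ y ∈ Ou k u, tr K0 (s * x * y) ∈ Algebra.adjoin k {u}}
        add_mem' := fun {a b} ha hb y hy => by
          have := add_mem (ha y hy) (hb y hy)
          simpa [tr, add_mul] using this
        zero_mem' := fun y _ => by simp [tr]
        smul_mem' := fun c s hs y hy => by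
          have := hs (c * y) (mul_mem c.2 hy)
          have e : ((c • s : Ou k u) : F) * x * y = s * x * (c * y) := by
            show (c : F) * s * x * y = _
            ring
          rw [e]; exact this }
    have hJ : ∀ (s : F) (hs : s ∈ Ou k u) (i : ι), s * (x / f i) ∈ Ou k u →
        (⟨s, hs⟩ : Ou k u) ∈ J := by
      intro s hs i hi y hy
      have := hf1 i _ (mul_mem hi hy)
      have e : f i * (s * (x / f i) * y) = s * x * y := by field_simp [hf0 i]
      rwa [e] at this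
    have hT : J = ⊤ := by
      by_contra hT
      obtain ⟨Q, hQ⟩ := exists_pole h.inv.trans
      obtain ⟨-, i0, -⟩ := hΔ Q (by simpa using (Q.O.mem_or_inv_mem u).resolve_right hQ)
      have h0 : J ≠ ⊥ := by
        obtain ⟨a, ha, b, hb, hb0, e⟩ := h.exists_frac (x / f i0)
        intro hJ0
        have := hJ b hb i0 (by rw [e, mul_div_cancel₀ _ hb0]; exact ha)
        rw [hJ0, Ideal.mem_bot] at this
        exact hb0 (congrArg Subtype.val this)
      obtain ⟨P, hP, hP'⟩ := h.exists_place J h0 hT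
      obtain ⟨-, i, hi⟩ := hΔ P hP
      have h1 : x / f i ∈ P.O := by
        rw [← P.mem_pw_zero, div_eq_inv_mul, P.mul_mem_pw_iff (inv_ne_zero (hf0 i)), P.ord_inv, hi]
        simpa using mem_Iu.1 hx P hP
      obtain ⟨s, hs, hs1, hs2⟩ := h.exists_mul_mem P hP h1
      exact hs1 (hP' _ (hJ s hs i hs2))
    have h1 : (1 : Ou k u) ∈ J := hT ▸ Submodule.mem_top
    intro y hy
    simpa using h1 y hy
  · intro hx
    obtain ⟨c, hc, rfl⟩ := hf2 x hx
    exact Submodule.sum_mem _ fun i _ => mul_mem_Iu_of_mem (hc i)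
      (mem_Iu.2 fun P hP => P.mem_pw_of_le ((hΔ P hP).1 i))

theorem mem_Iu_sub (h : Chart K0 u) {Δ : Divisor k F} (hΔ : IsDiff K0 u Δ) (D : Divisor k F)
    (x : F) : x ∈ Iu u (Δ - D) ↔ ∀ y ∈ Iu u D, tr K0 (x * y) ∈ Algebra.adjoin k {u} := by
  constructor
  · intro hx y hy
    have := mul_mem_Iu hx hy
    rw [sub_add_cancel] at this
    simpa using (hΔ _).1 this 1 (one_mem _)
  · intro hx
    refine mem_Iu.2 fun P hP => ?_
    obtain ⟨y, hy, hy0, hy1⟩ := h.exists_ord_eq D hP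
    have h1 : y * x ∈ Iu u Δ := (hΔ _).2 fun z hz => by
      have := hx _ (mul_mem_Iu_of_mem hz hy)
      rwa [show x * (z * y) = y * x * z by ring] at this
    have := (P.mul_mem_pw_iff hy0).1 (mem_Iu.1 h1 P hP)
    exact P.pw_mono (by rw [hy1]; simp) this

theorem IsNB.mem_Iu_iff {D : Divisor k F} {ι : Type*} [Fintype ι] {e : ι → F} {d : ι → ℤ}
    (hb : IsNB u D e d) (y : F) :
    y ∈ Iu u D ↔ ∃ a : ι → k[X], y = ∑ i, aeval u (a i) * e i :=
  ⟨hb.span y, by
    rintro ⟨a, rfl⟩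
    exact Submodule.sum_mem _ fun i _ =>
      mul_mem_Iu_of_mem (aeval_mem_Ou u _) (Ln_le_Iu _ _ _ (hb.mem i))⟩

theorem IsNB.mem_Iu_inv_iff (hu : u ≠ 0) {D : Divisor k F} {ι : Type*} [Fintype ι] {e : ι → F}
    {d : ι → ℤ} (hb : IsNB u D e d) (y : F) :
    y ∈ Iu u⁻¹ D ↔ ∃ a : ι → k[X], y = ∑ i, aeval u⁻¹ (a i) * (u ^ (-d i) * e i) := by
  constructor
  · intro hy
    obtain ⟨n, hn⟩ := exists_mem_Ln hy
    have h1 : u ^ (n : ℤ) * y ∈ Ln u D n := by
      rw [← zpow_mul_mem_Ln_inv hu, ← mul_assoc, ← zpow_add₀ hu]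
      simpa using hn
    obtain ⟨a, ha, e1⟩ := (hb.mem_Ln_iff _ _).1 h1
    choose b hb' using fun i => mem_adjoin_iff.1 (zpow_mul_aeval_mem hu (ha i))
    refine ⟨b, ?_⟩
    have : y = u ^ (-(n : ℤ)) * (u ^ (n : ℤ) * y) := by
      rw [← mul_assoc, ← zpow_add₀ hu]; simp
    rw [this, e1, Finset.mul_sum]
    refine Finset.sum_congr rfl fun i _ => ?_
    rw [hb', mul_mul_mul_comm, ← zpow_add₀ hu]
    congr 2; ring
  · rintro ⟨a, rfl⟩
    exact Submodule.sum_mem _ fun i _ => mul_mem_Iu_of_mem (aeval_mem_Ou _ _)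
      (Ln_le_Iu _ _ _ ((zpow_mul_mem_Ln_inv hu).2 (hb.mem i)))

theorem exists_isDiff (h : Chart K0 u) : ∃ Δ : Divisor k F, IsDiff K0 u Δ ∧ IsDiff K0 u⁻¹ Δ := by
  classical
  have := h.fin
  have := h.sep
  have hu := h.ne_zero
  obtain ⟨e, d, hb⟩ := h.exists_isNB 0
  have hne : (Finset.univ : Finset (Fin (finrank K0 F))).Nonempty :=
    ⟨⟨0, finrank_pos⟩, Finset.mem_univ _⟩
  let f : Place k F → Fin (finrank K0 F) → ℤ := fun P i =>
    if u ∈ P.O then -P.ord (e.traceDual i) else -P.ord (u ^ d i * e.traceDual i)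
  have hfin : (Function.support fun P => Finset.univ.sup' hne (f P)).Finite := by
    refine ((RR.finite_poles (k := k) u).union
      (Set.finite_iUnion fun i => finite_ord (k := k) (e.traceDual i))).subset fun P hP => ?_
    by_contra hc
    simp only [Set.mem_union, Set.mem_ofPred_eq, Set.mem_iUnion, Function.mem_support, not_or,
      not_not, not_exists] at hc
    apply hP
    simp [f, hc.1, hc.2]
  let Δ : Divisor k F := Finsupp.ofSupportFinite _ hfin
  have hΔ : ∀ P, (∀ i, f P i ≤ Δ P) ∧ ∃ i, f P i = Δ P := fun P =>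
    ⟨fun i => Finset.le_sup' (f P) (Finset.mem_univ i), by
      obtain ⟨i, -, hi⟩ := Finset.exists_mem_eq_sup' hne (f P)
      exact ⟨i, hi.symm⟩⟩
  have hO : ∀ (v x : F), (∀ y ∈ Ou k v, tr K0 (x * y) ∈ Algebra.adjoin k {v}) ↔
      ∀ y ∈ Iu v (0 : Divisor k F), tr K0 (x * y) ∈ Algebra.adjoin k {v} := by
    simp only [mem_Iu_zero, implies_true]
  refine ⟨Δ, h.isDiff_of (f := e.traceDual) e.traceDual.ne_zero (fun i => ?_) (fun x hx => ?_)
    (fun P hP => ?_), h.inv.isDiff_of (f := fun i => u ^ d i * e.traceDual i)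
      (fun i => mul_ne_zero (zpow_ne_zero _ hu) (e.traceDual.ne_zero i)) (fun i => ?_)
      (fun x hx => ?_) (fun P hP => ?_)⟩
  · rw [hO, h.dual_span hb.mem_Iu_iff]
    intro j
    rw [tr_traceDual]
    split_ifs
    exacts [one_mem _, zero_mem _]
  · rw [hO, h.dual_span hb.mem_Iu_iff] at hx
    exact ⟨_, fun i => adjoin_le_Ou u (hx i), sum_tr_mul e x⟩
  · have := hΔ P
    simp only [f, if_pos hP] at this
    exact ⟨fun i => by linarith [this.1 i], this.2.imp fun i hi => by linarith⟩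
  · rw [hO, h.inv.dual_span (hb.mem_Iu_inv_iff hu)]
    intro j
    rw [mul_mul_mul_comm, tr_mul (mul_mem (zpow_mem h.self_mem _) (zpow_mem h.self_mem _)),
      tr_traceDual]
    split_ifs with hij
    · subst hij
      rw [← zpow_add₀ hu]
      simp
    · simp
  · rw [hO, h.inv.dual_span (hb.mem_Iu_inv_iff hu)] at hx
    refine ⟨_, fun i => adjoin_le_Ou _ (hx i), ?_⟩
    conv_lhs => rw [sum_tr_mul e x]
    refine Finset.sum_congr rfl fun i _ => ?_
    rw [mul_left_comm x, tr_mul (zpow_mem h.self_mem _), mul_mul_mul_comm, ← zpow_add₀ hu]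
    simp
  · have h1 : ∀ i, f P i = -P.ord (u ^ d i * e.traceDual i) := fun i => by
      simp only [f]
      split_ifs with hP'
      · have h2 := P.mem_iff.1 hP
        have h3 := P.mem_iff.1 hP'
        rw [P.ord_inv] at h2
        rw [P.ord_mul (zpow_ne_zero _ hu) (e.traceDual.ne_zero i), P.ord_zpow,
          show P.ord u = 0 by omega]
        simp
      · rfl
    have := hΔ P
    simp only [h1] at this
    exact ⟨fun i => by linarith [this.1 i], this.2.imp fun i hi => by linarith⟩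

theorem ell_dual (h : Chart K0 u) {Δ : Divisor k F} (h1 : IsDiff K0 u Δ) (h2 : IsDiff K0 u⁻¹ Δ)
    {D : Divisor k F} {ι : Type*} [Fintype ι] {e : Basis ι K0 F} {d : ι → ℤ}
    (hb : IsNB u D e d) : ell (Δ - D + (-2 : ℤ) • poleD k u) = ∑ i, (d i - 2 + 1).toNat := by
  classical
  have := h.fin
  have := h.sep
  have hu := h.ne_zero
  refine (h.finrank_of_basis e.traceDual (Ln u (Δ - D) (-2)) _ fun x => ?_).2
  rw [mem_Ln_iff hu, h.mem_Iu_sub h1, h.inv.mem_Iu_sub h2, h.dual_span hb.mem_Iu_iff,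
    h.inv.dual_span (hb.mem_Iu_inv_iff hu)]
  have key : ∀ i, tr K0 (u ^ (-(-2 : ℤ)) * x * (u ^ (-d i) * e i)) =
      u ^ (-(d i - 2)) * tr K0 (x * e i) := fun i => by
    rw [mul_mul_mul_comm, ← zpow_add₀ hu, tr_mul (zpow_mem h.self_mem _)]
    congr 2; ring
  simp only [key]
  constructor
  · rintro ⟨H1, H2⟩
    choose a ha using fun i => mem_adjoin_iff.1 (H1 i)
    refine ⟨a, fun i => natDegree_le_of_mem h.trans (by rw [ha]; exact H2 i), ?_⟩
    simp only [ha]
    exact sum_tr_mul e x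
  · rintro ⟨a, ha, rfl⟩
    simp only [tr_sum_traceDual e fun i => h.aeval_mem (a i)]
    exact ⟨fun i => mem_adjoin_iff.2 ⟨_, rfl⟩, fun i => zpow_mul_aeval_mem hu (ha i)⟩

/-- Riemann-Roch for an arbitrary field of constants. -/
theorem riemann_roch' (h : Chart K0 u) {Δ : Divisor k F} (h1 : IsDiff K0 u Δ)
    (h2 : IsDiff K0 u⁻¹ Δ) : ∃ c : ℤ, ∀ D : Divisor k F,
      (ell D : ℤ) - ell (Δ - (2 : ℤ) • poleD k u - D) = degD D + c := by
  obtain ⟨c, hc⟩ := h.exists_chi
  refine ⟨c, fun D => ?_⟩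
  obtain ⟨e, d, hb⟩ := h.exists_isNB D
  have e1 := h.ell_eq hb 0
  have e2 := h.ell_dual h1 h2 hb
  have e3 := (h.chi_of_isNB hb).unique (hc D)
  rw [zero_smul, add_zero] at e1
  have : Δ - (2 : ℤ) • poleD k u - D = Δ - D + (-2 : ℤ) • poleD k u := by
    rw [neg_smul]; abel
  rw [this, e1, e2, ← e3, Nat.cast_sum, Nat.cast_sum, ← Finset.sum_sub_distrib]
  exact Finset.sum_congr rfl fun i _ => by omega

/-- The Riemann-Roch theorem; the canonical divisor is the different minus twice the polar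
divisor of `u`. -/
theorem riemann_roch (h : Chart K0 u)
    (hc : ∀ x : F, IsAlgebraic k x → x ∈ (algebraMap k F).range) :
    ∃ (g : ℕ) (Δ : Divisor k F), IsDiff K0 u Δ ∧ IsDiff K0 u⁻¹ Δ ∧
      IsRR g (Δ - (2 : ℤ) • poleD k u) := by
  obtain ⟨Δ, h1, h2⟩ := h.exists_isDiff
  obtain ⟨c, hc'⟩ := h.riemann_roch' h1 h2
  refine ⟨ell (Δ - (2 : ℤ) • poleD k u), Δ, h1, h2, fun D => inferInstance, fun D => ?_⟩
  have h0 := hc' 0
  rw [ell_zero hc, sub_zero, map_zero] at h0
  have := hc' D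
  omega

end Chart

end Pool.Agent.P.MP_a2beea_nt.RR
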