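import Mathlib

/-!
The algebra behind the vanishing of the Gram form on the characteristic polynomial of Frobenius.

Sketch: `L.coeff 0 = 1`, so `P = L.reflect (2g)` is monic of degree `2g` (and
`L.coeff (2g) = q ^ g ≠ 0`). Let `α` run through the `2g` complex roots of `P` (a multiset), so
`L = ∏ (1 - α T)`, and put `s n = ∑ α ^ n`. With `Z = mk A`, `NN = ∑ N (n + 1) T ^ (n + 1)` the
recurrence says `T Z' = NN Z`; logarithmic derivatives in `ℂ⟦T⟧` (`Z` is a unit) give
`N n = q ^ n + 1 - s n` for `n ≥ 1`. The symmetry of the coefficients says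
`L(T) = q ^ g T ^ (2g) L(1 / (q T))`, that is `L = q ^ g ∏ (T - α / q)`; comparing with
`L = ∏ (-α) (T - 1 / α)` shows that the multiset of the `α` is invariant under `α ↦ q / α`.
Then the entry `(i, j)` equals `∑ α ^ i (q / α) ^ j` (use the invariance for `i < j`), and the
double sum is `∑ P(α) P(q / α) = 0`.
-/

namespace Pool.Agent.P.MP_a2beea_nt.RR

open Polynomial

/-- `s` is the logarithmic derivative `T F' / F` of `F`. -/
def ZAlgLD (F s : PowerSeries ℂ) : Prop :=
  PowerSeries.X * PowerSeries.derivative ℂ F = s * F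

theorem zalg_mul {F G s t : PowerSeries ℂ} (hF : ZAlgLD F s) (hG : ZAlgLD G t) :
    ZAlgLD (F * G) (s + t) := by
  unfold ZAlgLD at *
  rw [Derivation.leibniz, smul_eq_mul, smul_eq_mul]
  linear_combination G * hF + F * hG

/-- The series `- ∑ a ^ n T ^ n` over `n ≥ 1`. -/
noncomputable def zalgS (a : ℂ) : PowerSeries ℂ := 1 - PowerSeries.mk fun n => a ^ n

theorem zalg_lin (a : ℂ) : ZAlgLD (1 - PowerSeries.C a * PowerSeries.X) (zalgS a) := by
  unfold ZAlgLD zalgS
  have h : (PowerSeries.mk fun n => a ^ n) * (1 - PowerSeries.C a * PowerSeries.X) = 1 := by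
    ext n
    rw [mul_sub, mul_one, ← mul_assoc, map_sub]
    rcases n with _ | n
    · simp
    · rw [PowerSeries.coeff_succ_mul_X, PowerSeries.coeff_mul_C]
      simp [pow_succ, PowerSeries.coeff_one]
  rw [map_sub, PowerSeries.derivative_one, Derivation.leibniz, PowerSeries.derivative_C,
    PowerSeries.derivative_X, smul_eq_mul, smul_eq_mul]
  linear_combination h

theorem zalg_prod (S : Multiset ℂ) :
    ZAlgLD (S.map fun a => 1 - PowerSeries.C a * PowerSeries.X).prod (S.map zalgS).sum := by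
  induction S using Multiset.induction_on with
  | empty => simp [ZAlgLD]
  | cons a S ih =>
    rw [Multiset.map_cons, Multiset.map_cons, Multiset.prod_cons, Multiset.sum_cons]
    exact zalg_mul (zalg_lin a) ih

theorem zalg_coeff (S : Multiset ℂ) (n : ℕ) :
    PowerSeries.coeff (n + 1) (S.map zalgS).sum = -(S.map fun a => a ^ (n + 1)).sum := by
  induction S using Multiset.induction_on with
  | empty => simp
  | cons a S ih =>
    rw [Multiset.map_cons, Multiset.map_cons, Multiset.sum_cons, Multiset.sum_cons, map_add, ih]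
    simp [zalgS, PowerSeries.coeff_one]
    ring

theorem zalg_rec (A N : ℕ → ℕ)
    (hrec : ∀ n, n * A n = ∑ j ∈ Finset.range n, N (j + 1) * A (n - (j + 1))) :
    ZAlgLD (PowerSeries.mk fun n => (A n : ℂ))
      (PowerSeries.mk fun n => if n = 0 then 0 else (N n : ℂ)) := by
  unfold ZAlgLD
  ext n
  rw [PowerSeries.coeff_mul (φ := PowerSeries.mk _),
    Finset.Nat.sum_antidiagonal_eq_sum_range_succ_mk, Finset.sum_range_succ']
  have h : (n : ℂ) * A n = ∑ j ∈ Finset.range n, (N (j + 1) : ℂ) * A (n - (j + 1)) := by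
    exact_mod_cast congrArg (Nat.cast : ℕ → ℂ) (hrec n)
  simp only [PowerSeries.coeff_mk, Nat.succ_ne_zero, if_false, if_true, zero_mul, add_zero]
  rw [← h]
  rcases n with _ | n
  · simp
  · rw [PowerSeries.coeff_succ_X_mul, PowerSeries.coeff_derivative, PowerSeries.coeff_mk]
    push_cast
    ring

theorem zalg_rev {p r : ℂ[X]} {d : ℕ} (hp : p.natDegree ≤ d) (hr : r.natDegree ≤ d) {c k : ℂ}
    (h : ∀ i ≤ d, p.coeff i * c ^ i = k * r.coeff (d - i)) {x : ℂ} (hx : x ≠ 0) :
    p.eval (c / x) * x ^ d = k * r.eval x := by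
  rw [eval_eq_sum_range' (Nat.lt_succ_of_le hp), eval_eq_sum_range' (Nat.lt_succ_of_le hr),
    Finset.sum_mul, Finset.mul_sum, ← Finset.sum_flip (fun i => k * (r.coeff i * x ^ i))]
  refine Finset.sum_congr rfl fun i hi => ?_
  have hi' : i ≤ d := Nat.lt_succ_iff.1 (Finset.mem_range.1 hi)
  obtain ⟨m, rfl⟩ := Nat.exists_eq_add_of_le hi'
  rw [← mul_assoc, ← h i hi', Nat.add_sub_cancel_left, pow_add, div_pow]
  field_simp

theorem zalg_ext {p r : ℂ[X]} (h : ∀ x ≠ 0, p.eval x = r.eval x) : p = r := by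
  refine eq_of_infinite_eval_eq p r ?_
  exact ((Set.finite_singleton (0 : ℂ)).infinite_compl).mono fun x hx => h x hx

theorem zalg_scale (S : Multiset ℂ) (c : ℂ) {x : ℂ} (hx : x ≠ 0) :
    (S.map (c / x - ·)).prod * x ^ S.card = (S.map fun a => c - a * x).prod := by
  induction S using Multiset.induction_on with
  | empty => simp
  | cons a S ih =>
    simp only [Multiset.map_cons, Multiset.prod_cons, Multiset.card_cons]
    rw [← ih, pow_succ]
    field_simp

theorem zalg_flip (S : Multiset ℂ) (hS : ∀ a ∈ S, a ≠ 0) (c x : ℂ) :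
    (S.map fun a => c - a * x).prod = (S.map (0 - ·)).prod * (S.map fun a => x - c / a).prod := by
  rw [← Multiset.prod_map_mul]
  refine congrArg Multiset.prod (Multiset.map_congr rfl fun a ha => ?_)
  have := hS a ha
  field_simp
  ring

theorem zalg_inv {P : ℂ[X]} (hm : P.Monic) {g : ℕ} (hd : P.natDegree = 2 * g) {q : ℂ} (hq : q ≠ 0)
    (h : ∀ i ≤ 2 * g, P.coeff i * q ^ i = q ^ g * P.coeff (2 * g - i)) :
    (∀ a ∈ P.roots, a ≠ 0) ∧ P.roots.map (q / ·) = P.roots := by
  have hs := (IsAlgClosed.splits P).eval_eq_prod_roots_of_monic hm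
  have hc : P.roots.card = 2 * g := IsAlgClosed.card_roots_eq_natDegree.trans hd
  have h0 : P.eval 0 = q ^ g := by
    have h1 := h 0 (Nat.zero_le _)
    rw [pow_zero, mul_one, Nat.sub_zero, ← hd, coeff_natDegree, hm.leadingCoeff, mul_one] at h1
    rw [← coeff_zero_eq_eval_zero, h1]
  have hne : ∀ a ∈ P.roots, a ≠ 0 := fun a ha e => by
    have h1 : P.eval a = 0 := (mem_roots hm.ne_zero).1 ha
    rw [e, h0] at h1
    exact pow_ne_zero g hq h1
  refine ⟨hne, ?_⟩
  have key : P = ((P.roots.map (q / ·)).map fun a => X - C a).prod := by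
    refine zalg_ext fun x hx => ?_
    have h1 := zalg_rev hd.le hd.le h hx
    rw [hs (q / x), ← hc, zalg_scale _ _ hx, zalg_flip _ hne, ← hs 0, h0] at h1
    rw [← mul_left_cancel₀ (pow_ne_zero g hq) h1, eval_multiset_prod]
    simp only [Multiset.map_map, Function.comp_def, eval_sub, eval_X, eval_C]
  conv_rhs => rw [key, roots_multiset_prod_X_sub_C]

theorem zalg_gram (P : ℂ[X]) (n : ℕ) (hn : P.natDegree < n) (q : ℂ) (S : Multiset ℂ)
    (hS : ∀ a ∈ S, P.eval a = 0) :
    ∑ i ∈ Finset.range n, ∑ j ∈ Finset.range n,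
      P.coeff i * P.coeff j * (S.map fun a => a ^ i * (q / a) ^ j).sum = 0 := by
  induction S using Multiset.induction_on with
  | empty => simp
  | cons a S ih =>
    simp only [Multiset.map_cons, Multiset.sum_cons, mul_add, Finset.sum_add_distrib]
    rw [ih fun b hb => hS b (Multiset.mem_cons_of_mem hb), add_zero]
    have h1 := hS a (Multiset.mem_cons_self a S)
    rw [eval_eq_sum_range' hn] at h1
    calc _ = (∑ i ∈ Finset.range n, P.coeff i * a ^ i) *
          ∑ j ∈ Finset.range n, P.coeff j * (q / a) ^ j := by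
          rw [Finset.sum_mul_sum]
          exact Finset.sum_congr rfl fun i _ => Finset.sum_congr rfl fun j _ => by ring
      _ = 0 := by rw [h1, zero_mul]

theorem zalg_entry (S : Multiset ℂ) (hS : ∀ a ∈ S, a ≠ 0) (q : ℂ) (hinv : S.map (q / ·) = S)
    (N : ℕ → ℂ) (hN : ∀ n, N (n + 1) = q ^ (n + 1) + 1 - (S.map fun a => a ^ (n + 1)).sum)
    (i j : ℕ) :
    (if i = j then S.card * q ^ i else q ^ i + q ^ j - q ^ min i j * N (max i j - min i j)) =
      (S.map fun a => a ^ i * (q / a) ^ j).sum := by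
  have e1 : ∀ j m : ℕ, (S.map fun a => a ^ (j + m) * (q / a) ^ j).sum =
      q ^ j * (S.map fun a => a ^ m).sum := fun j m => by
    rw [← Multiset.sum_map_mul_left]
    refine congrArg Multiset.sum (Multiset.map_congr rfl fun a ha => ?_)
    have := hS a ha
    rw [pow_add, div_pow]
    field_simp
  have e2 : ∀ j m : ℕ, (S.map fun a => a ^ j * (q / a) ^ (j + m)).sum =
      q ^ j * (S.map fun a => a ^ m).sum := fun j m => by
    conv_rhs => rw [← hinv, Multiset.map_map, ← Multiset.sum_map_mul_left]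
    refine congrArg Multiset.sum (Multiset.map_congr rfl fun a ha => ?_)
    have := hS a ha
    simp only [Function.comp_apply]
    rw [pow_add, div_pow q a j]
    field_simp
  rcases lt_trichotomy i j with h | h | h
  · obtain ⟨m, rfl⟩ := Nat.exists_eq_add_of_lt h
    rw [if_neg h.ne, min_eq_left h.le, max_eq_right h.le, add_assoc, Nat.add_sub_cancel_left,
      e2, hN]
    ring
  · subst h
    have e3 := e1 i 0
    rw [add_zero] at e3
    rw [if_pos rfl, e3]
    simp [mul_comm]
  · obtain ⟨m, rfl⟩ := Nat.exists_eq_add_of_lt h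
    rw [if_neg h.ne', min_eq_right h.le, max_eq_left h.le, add_assoc, Nat.add_sub_cancel_left,
      e1, hN]
    ring

theorem zalg_count (q : ℂ) (A N : ℕ → ℕ)
    (hrec : ∀ n, n * A n = ∑ j ∈ Finset.range n, N (j + 1) * A (n - (j + 1))) (S : Multiset ℂ)
    (h : (S.map fun a => 1 - PowerSeries.C a * PowerSeries.X).prod =
      (PowerSeries.mk fun n => (A n : ℂ)) * (1 - PowerSeries.X) *
        (1 - PowerSeries.C q * PowerSeries.X)) (hA0 : A 0 = 1) (n : ℕ) :
    (N (n + 1) : ℂ) = q ^ (n + 1) + 1 - (S.map fun a => a ^ (n + 1)).sum := by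
  have h1 := zalg_prod S
  have h2 := zalg_lin 1
  rw [map_one, one_mul] at h2
  have h3 := zalg_mul (zalg_mul (zalg_rec A N hrec) h2) (zalg_lin q)
  rw [h] at h1
  have h4 : (PowerSeries.mk fun n => (A n : ℂ)) * (1 - PowerSeries.X) *
      (1 - PowerSeries.C q * PowerSeries.X) ≠ 0 := fun e => by
    have := congrArg PowerSeries.constantCoeff e
    simp [hA0] at this
  have h5 := congrArg (PowerSeries.coeff (n + 1)) (mul_right_cancel₀ h4 (h1.symm.trans h3))
  rw [zalg_coeff] at h5
  simp [zalgS, PowerSeries.coeff_one] at h5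
  linear_combination -h5

theorem zeta_alg (q g : ℕ) (hq : 0 < q) (A N : ℕ → ℕ) (L : ℤ[X]) (hA0 : A 0 = 1)
    (hrec : ∀ n, n * A n = ∑ j ∈ Finset.range n, N (j + 1) * A (n - (j + 1)))
    (hL : (L : PowerSeries ℤ) = (PowerSeries.mk fun n => (A n : ℤ)) *
      (1 - PowerSeries.X) * (1 - PowerSeries.C (q : ℤ) * PowerSeries.X))
    (hdeg : L.natDegree ≤ 2 * g)
    (hfe : ∀ i ≤ g, L.coeff (2 * g - i) = (q : ℤ) ^ (g - i) * L.coeff i) :
    ∃ P : ℤ[X], P.Monic ∧ P.natDegree = 2 * g ∧ P.eval 1 = L.eval 1 ∧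
      ∑ i ∈ Finset.range (P.natDegree + 1), ∑ j ∈ Finset.range (P.natDegree + 1),
        (P.coeff i : ℝ) * P.coeff j *
          (if i = j then 2 * g * (q : ℝ) ^ i else
            (q : ℝ) ^ i + (q : ℝ) ^ j - (q : ℝ) ^ min i j * N (max i j - min i j)) = 0 := by
  have hq' : (q : ℂ) ≠ 0 := Nat.cast_ne_zero.2 hq.ne'
  have hL0 : L.coeff 0 = 1 := by
    have := congrArg PowerSeries.constantCoeff hL
    simpa [hA0] using this
  have hPc : ∀ i ≤ 2 * g, (L.reflect (2 * g)).coeff i = L.coeff (2 * g - i) := fun i hi => by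
    rw [coeff_reflect, revAt_le hi]
  have hPd : (L.reflect (2 * g)).natDegree ≤ 2 * g :=
    natDegree_reflect_le.trans (max_le le_rfl hdeg)
  have hP1 : (L.reflect (2 * g)).coeff (2 * g) = 1 := by rw [hPc _ le_rfl, Nat.sub_self, hL0]
  generalize L.reflect (2 * g) = P at hPc hPd hP1
  have hm : P.Monic := monic_of_natDegree_le_of_coeff_eq_one _ hPd hP1
  have hd : P.natDegree = 2 * g :=
    natDegree_eq_of_le_of_coeff_ne_zero hPd (by rw [hP1]; exact one_ne_zero)
  refine ⟨P, hm, hd, ?_, ?_⟩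
  · rw [eval_eq_sum_range' (Nat.lt_succ_of_le hPd), eval_eq_sum_range' (Nat.lt_succ_of_le hdeg),
      ← Finset.sum_flip (fun i => L.coeff i * 1 ^ i)]
    refine Finset.sum_congr rfl fun i hi => ?_
    rw [hPc i (Nat.lt_succ_iff.1 (Finset.mem_range.1 hi)), one_pow, one_pow]
  have hm' : (P.map (Int.castRingHom ℂ)).Monic := hm.map _
  have hd' : (P.map (Int.castRingHom ℂ)).natDegree = 2 * g := (hm.natDegree_map _).trans hd
  have hsym : ∀ i ≤ 2 * g, P.coeff i * (q : ℤ) ^ i = (q : ℤ) ^ g * P.coeff (2 * g - i) := by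
    intro i hi
    rw [hPc i hi, hPc _ (Nat.sub_le _ _), Nat.sub_sub_self hi]
    rcases le_total i g with h | h
    · rw [hfe i h, mul_right_comm, ← pow_add, Nat.sub_add_cancel h]
    · have h1 := hfe (2 * g - i) (by omega)
      rw [Nat.sub_sub_self hi] at h1
      rw [h1, ← mul_assoc, ← pow_add, mul_comm]
      congr 2
      omega
  obtain ⟨hne, hinv⟩ := zalg_inv hm' hd' hq' fun i hi => by
    simp only [coeff_map, eq_intCast]
    exact_mod_cast congrArg (Int.cast : ℤ → ℂ) (hsym i hi)
  have hc : (P.map (Int.castRingHom ℂ)).roots.card = 2 * g :=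
    IsAlgClosed.card_roots_eq_natDegree.trans hd'
  have hLp : L.map (Int.castRingHom ℂ) =
      ((P.map (Int.castRingHom ℂ)).roots.map fun a => 1 - C a * X).prod := by
    refine zalg_ext fun x hx => ?_
    have h1 := zalg_rev (r := L.map (Int.castRingHom ℂ)) (c := 1) (k := 1) hd'.le
      (natDegree_map_le.trans hdeg) (fun i hi => by simp [coeff_map, hPc i hi]) hx
    rw [(IsAlgClosed.splits _).eval_eq_prod_roots_of_monic hm', ← hc, zalg_scale _ _ hx,
      one_mul] at h1
    rw [← h1, eval_multiset_prod]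
    simp only [Multiset.map_map, Function.comp_def, eval_sub, eval_mul, eval_X, eval_C, eval_one]
  have hN := zalg_count q A N hrec (P.map (Int.castRingHom ℂ)).roots (by
    have h1 := congrArg (PowerSeries.map (Int.castRingHom ℂ)) hL
    rw [← Polynomial.polynomial_map_coe, hLp, ← Polynomial.coeToPowerSeries.ringHom_apply,
      map_multiset_prod, Multiset.map_map] at h1
    refine Eq.trans (congrArg Multiset.prod (Multiset.map_congr rfl fun a _ => ?_)) (h1.trans ?_)
    · simp
    · simp only [map_mul, map_sub, map_one, PowerSeries.map_X, PowerSeries.map_C]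
      have e : PowerSeries.map (Int.castRingHom ℂ) (PowerSeries.mk fun n => (A n : ℤ)) =
          PowerSeries.mk fun n => (A n : ℂ) := by
        ext n
        simp
      rw [e, map_natCast (Int.castRingHom ℂ)]) hA0
  have hg := zalg_gram (P.map (Int.castRingHom ℂ)) (P.natDegree + 1) (by omega) q _
    fun a ha => (mem_roots hm'.ne_zero).1 ha
  apply Complex.ofReal_injective
  rw [Complex.ofReal_zero, ← hg, Complex.ofReal_sum]
  refine Finset.sum_congr rfl fun i _ => ?_
  rw [Complex.ofReal_sum]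
  refine Finset.sum_congr rfl fun j _ => ?_
  rw [← zalg_entry _ hne _ hinv (fun n => (N n : ℂ)) hN, hc]
  simp only [coeff_map, eq_intCast]
  split_ifs <;> push_cast <;> rfl

end Pool.Agent.P.MP_a2beea_nt.RR
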