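import Pool.Agent.P.MP_a2beea_nt.RR.ZDefs

/-!
Rationality and functional equation of the zeta function.

Sketch: `Cl := Divisor ⧸ (principal divisors)`; `degD` and `ell` descend (`IsRR.degD_divF`,
`ell_add_divF`). For `n : ℤ` let `Cl n` be the classes of degree `n`. For `n` large every class
of degree `n` contains an effective divisor (`IsRR.eq`, `mem_LL_iff`), so `Cl n` is finite
(`finite_eff`); adding multiples of the divisor of degree one gives bijections between all `Cl n`,
so they have the same number `h ≥ 1` of elements. The effective divisors in the class of `D` are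
the `divF x + D`, `x ∈ LL D`, `x ≠ 0`, and the fibres of `x ↦ divF x + D` are the `kˣ`-orbits
(`LL_zero hc`), so there are `(q ^ ell D - 1) / (q - 1)` of them. Put
`B n = ∑ C ∈ Cl n, q ^ ell C`, and `A n = 0` for `n < 0`. Then `(q - 1) A n = B n - h` for all
integers `n` (`IsRR.ell_eq_zero`), and `C ↦ W - C` gives `B n = q ^ (n + 1 - g) B (2g - 2 - n)`
in `ℚ` (`IsRR.eq`, `IsRR.degD_W`). With `a n = A n - (q + 1) A (n - 1) + q A (n - 2)` one has
`(q - 1) a n = B n - (q + 1) B (n - 1) + q B (n - 2)`, hence `a n = q ^ (n - g) a (2g - n)` for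
all integers `n`; `a n = 0` for `n < 0` gives `a n = 0` for `n > 2g`. Finally
`∑ i ≤ N, a i = A N - q A (N - 1) = h` for `N ≥ 2g` because `B n = h q ^ (n + 1 - g)` for
`n > 2g - 2` (`IsRR.ell_eq`).
-/

namespace Pool.Agent.P.MP_a2beea_nt.RR

open Polynomial

variable {k F : Type*} [Field k] [Field F] [Algebra k F] [IsFF k F]

theorem ZL_mk_mul_X (f : ℤ → ℤ) (hf : f (-1) = 0) :
    (PowerSeries.mk fun n : ℕ => f n) * PowerSeries.X = PowerSeries.mk fun n : ℕ => f (n - 1) := by
  ext n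
  cases n with
  | zero => simp [hf]
  | succ n => simp [PowerSeries.coeff_succ_mul_X]

theorem ZL_alg (q : ℕ) (hq : 1 < q) (g : ℕ) (A : ℤ → ℤ) (hA : ∀ n < 0, A n = 0) (B : ℤ → ℚ)
    (c : ℚ) (hc : c ≠ 0) (h1 : ∀ n, ((q : ℚ) - 1) * A n = B n - c)
    (h2 : ∀ n : ℤ, B n = (q : ℚ) ^ (n + 1 - g) * B (2 * g - 2 - n)) :
    ∃ L : ℤ[X], (L : PowerSeries ℤ) = (PowerSeries.mk fun n : ℕ => A n) *
        (1 - PowerSeries.X) * (1 - PowerSeries.C (q : ℤ) * PowerSeries.X) ∧
      L.natDegree ≤ 2 * g ∧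
      (∀ i ≤ g, L.coeff (2 * g - i) = (q : ℤ) ^ (g - i) * L.coeff i) ∧
      L.eval 1 ≠ 0 := by
  have hq0 : (q : ℚ) ≠ 0 := by positivity
  have hq1 : (q : ℚ) - 1 ≠ 0 := sub_ne_zero.2 (by exact_mod_cast hq.ne')
  obtain ⟨a, ha⟩ : ∃ a : ℤ → ℤ, ∀ n, a n = A n - (q + 1) * A (n - 1) + q * A (n - 1 - 1) :=
    ⟨_, fun _ => rfl⟩
  have haB : ∀ n, ((q : ℚ) - 1) * a n = B n - (q + 1) * B (n - 1) + q * B (n - 1 - 1) := by
    intro n
    rw [ha]
    push_cast
    linear_combination h1 n - (q + 1) * h1 (n - 1) + q * h1 (n - 1 - 1)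
  have hfe : ∀ n : ℤ, (a n : ℚ) = (q : ℚ) ^ (n - g) * a (2 * g - n) := by
    intro n
    apply mul_left_cancel₀ hq1
    have e1 := h2 n
    have e2 := h2 (n - 1)
    have e3 := h2 (n - 1 - 1)
    rw [show n + 1 - g = n - g + 1 by ring, zpow_add_one₀ hq0,
      show 2 * (g : ℤ) - 2 - n = 2 * g - n - 1 - 1 by ring] at e1
    rw [show n - 1 + 1 - g = n - g by ring,
      show 2 * (g : ℤ) - 2 - (n - 1) = 2 * g - n - 1 by ring] at e2
    rw [show n - 1 - 1 + 1 - g = n - g - 1 by ring, zpow_sub_one₀ hq0,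
      show 2 * (g : ℤ) - 2 - (n - 1 - 1) = 2 * g - n by ring] at e3
    have e4 : (q : ℚ) * B (n - 1 - 1) = (q : ℚ) ^ (n - g) * B (2 * g - n) := by
      rw [e3]; field_simp
    rw [haB, mul_left_comm, haB, e1, e2, e4]
    ring
  have hneg : ∀ n < 0, a n = 0 := fun n hn => by
    rw [ha, hA n hn, hA _ (by omega), hA _ (by omega)]; ring
  have hbig : ∀ n : ℤ, 2 * g < n → a n = 0 := fun n hn => by
    have := hfe n
    rw [hneg (2 * g - n) (by omega)] at this
    exact_mod_cast (by simpa using this : (a n : ℚ) = 0)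
  have hco : ∀ i : ℕ, (∑ j ∈ Finset.range (2 * g + 1), monomial j (a j)).coeff i = a i := by
    intro i
    rw [finset_sum_coeff]
    simp only [coeff_monomial]
    rw [Finset.sum_ite_eq']
    split_ifs with h
    · rfl
    · rw [Finset.mem_range] at h
      exact (hbig _ (by omega)).symm
  refine ⟨∑ j ∈ Finset.range (2 * g + 1), monomial j (a j), ?_, ?_, fun i hi => ?_, ?_⟩
  · have e1 := ZL_mk_mul_X A (hA _ (by norm_num))
    have e2 := ZL_mk_mul_X (fun n => A (n - 1)) (hA _ (by norm_num))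
    have e : (PowerSeries.mk fun n : ℕ => A n) * (1 - PowerSeries.X) *
        (1 - PowerSeries.C (q : ℤ) * PowerSeries.X) = (PowerSeries.mk fun n : ℕ => A n)
        - PowerSeries.C ((q : ℤ) + 1) * ((PowerSeries.mk fun n : ℕ => A n) * PowerSeries.X)
        + PowerSeries.C (q : ℤ) *
          ((PowerSeries.mk fun n : ℕ => A n) * PowerSeries.X * PowerSeries.X) := by
      rw [map_add, map_one]; ring
    rw [e, e1, e2]
    ext n
    rw [coeff_coe, hco, ha, map_add, map_sub, PowerSeries.coeff_C_mul, PowerSeries.coeff_C_mul,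
      PowerSeries.coeff_mk, PowerSeries.coeff_mk, PowerSeries.coeff_mk]
  · rw [natDegree_le_iff_coeff_eq_zero]
    intro N hN
    rw [hco]
    exact hbig _ (by omega)
  · rw [hco, hco]
    have := hfe ((2 * g - i : ℕ) : ℤ)
    rw [show ((2 * g - i : ℕ) : ℤ) - g = ((g - i : ℕ) : ℤ) by omega, zpow_natCast,
      show 2 * (g : ℤ) - ((2 * g - i : ℕ) : ℤ) = i by omega] at this
    exact_mod_cast this
  · rw [eval_finset_sum]
    simp only [eval_monomial, one_pow, mul_one]
    have hT : ∀ N : ℕ, ∑ j ∈ Finset.range N, a j = A (N - 1) - q * A (N - 1 - 1) := by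
      intro N
      induction N with
      | zero => simp [hA (-1) (by norm_num), hA (-2) (by norm_num)]
      | succ N ih =>
        rw [Finset.sum_range_succ, ih, ha]
        push_cast
        simp only [add_sub_cancel_right]
        ring
    rw [hT]
    intro h0
    have h0' : (A (2 * g) : ℚ) - q * A (2 * g - 1) = 0 := by
      push_cast at h0
      simp only [add_sub_cancel_right] at h0
      exact_mod_cast h0
    have b1 : B (-1) = c := by have := h1 (-1); rw [hA _ (by norm_num)] at this; simp at this; linarith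
    have b2 : B (-2) = c := by have := h1 (-2); rw [hA _ (by norm_num)] at this; simp at this; linarith
    have e1 := h2 (2 * g)
    have e2 := h2 (2 * g - 1)
    rw [show 2 * (g : ℤ) + 1 - g = g + 1 by ring, zpow_add_one₀ hq0,
      show 2 * (g : ℤ) - 2 - 2 * g = -2 by ring, b2] at e1
    rw [show 2 * (g : ℤ) - 1 + 1 - g = g by ring,
      show 2 * (g : ℤ) - 2 - (2 * g - 1) = -1 by ring, b1] at e2
    have : ((q : ℚ) - 1) * c = 0 := by
      linear_combination (q - 1) * h0' - h1 (2 * g) + q * h1 (2 * g - 1) - e1 + q * e2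
    exact hc ((mul_eq_zero.1 this).resolve_left hq1)

variable (k F) in
/-- The principal divisors. -/
def ZL_H : AddSubgroup (Divisor k F) where
  carrier := {D | ∃ x : F, x ≠ 0 ∧ divF k x = D}
  zero_mem' := ⟨1, one_ne_zero, divF_one⟩
  add_mem' := by
    rintro _ _ ⟨x, hx, rfl⟩ ⟨y, hy, rfl⟩
    exact ⟨x * y, mul_ne_zero hx hy, divF_mul hx hy⟩
  neg_mem' := by
    rintro _ ⟨x, hx, rfl⟩
    exact ⟨x⁻¹, inv_ne_zero hx, divF_inv x⟩

theorem ZL_mk_eq {D E : Divisor k F} :
    (D : Divisor k F ⧸ ZL_H k F) = E ↔ ∃ x : F, x ≠ 0 ∧ E = divF k x + D := by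
  rw [QuotientAddGroup.eq]
  refine exists_congr fun x => and_congr_right fun _ => ?_
  constructor
  · intro h; rw [h]; abel
  · intro h; rw [h]; abel

/-- The dimension of a divisor class. -/
noncomputable def ZL_ell (C : Divisor k F ⧸ ZL_H k F) : ℕ := ell C.out

theorem ZL_ell_mk (D : Divisor k F) : ZL_ell (D : Divisor k F ⧸ ZL_H k F) = ell D := by
  obtain ⟨x, hx, e⟩ := ZL_mk_eq.1 (QuotientAddGroup.out_eq' (D : Divisor k F ⧸ ZL_H k F)).symm
  rw [ZL_ell, e, add_comm, ell_add_divF _ hx]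

theorem ZL_count [Fintype k] (hc : ∀ x : F, IsAlgebraic k x → x ∈ (algebraMap k F).range)
    (D : Divisor k F) [FiniteDimensional k (LL D)] (T : Finset (Divisor k F))
    (hT : ∀ E, E ∈ T ↔ 0 ≤ E ∧ (D : Divisor k F ⧸ ZL_H k F) = E) :
    ((Fintype.card k : ℚ) - 1) * T.card = (Fintype.card k : ℚ) ^ ell D - 1 := by
  classical
  have : Finite (LL D) := Module.finite_of_finite k
  have := Fintype.ofFinite (LL D)
  have hcard : Fintype.card (LL D) = Fintype.card k ^ ell D := Module.card_eq_pow_finrank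
  have h1 := Finset.card_eq_sum_card_fiberwise (s := (Finset.univ : Finset (LL D)).erase 0)
    (t := T) (f := fun x : LL D => divF k (x : F) + D) (by
      intro x hx
      have hx0 : (x : F) ≠ 0 := fun h => (Finset.mem_erase.1 hx).1 (Subtype.ext h)
      exact (hT _).2 ⟨(mem_LL_iff hx0).1 x.2, ZL_mk_eq.2 ⟨x, hx0, rfl⟩⟩)
  have h2 : ∀ E ∈ T, (((Finset.univ : Finset (LL D)).erase 0).filter
      fun x : LL D => divF k (x : F) + D = E).card = Fintype.card k - 1 := by
    intro E hE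
    obtain ⟨hE0, hE1⟩ := (hT E).1 hE
    obtain ⟨y, hy, rfl⟩ := ZL_mk_eq.1 hE1
    have hyL : y ∈ LL D := (mem_LL_iff hy).2 hE0
    have hy0 : (⟨y, hyL⟩ : LL D) ≠ 0 := fun h => hy (congrArg Subtype.val h)
    rw [← Finset.card_univ, ← Finset.card_erase_of_mem (Finset.mem_univ (0 : k))]
    symm
    refine Finset.card_bij (fun c _ => c • (⟨y, hyL⟩ : LL D)) (fun c hc0 => ?_)
      (fun c _ c' _ e => smul_left_injective k hy0 e) (fun x hx => ?_)
    · have hc0' : c ≠ 0 := (Finset.mem_erase.1 hc0).1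
      rw [Finset.mem_filter, Finset.mem_erase]
      refine ⟨⟨smul_ne_zero hc0' hy0, Finset.mem_univ _⟩, ?_⟩
      congr 1
      ext P
      exact P.ord_smul hc0' y
    · rw [Finset.mem_filter, Finset.mem_erase] at hx
      have hx0 : (x : F) ≠ 0 := fun h => hx.1.1 (Subtype.ext h)
      have e : divF k (x : F) = divF k y := add_right_cancel hx.2
      have hm : (x : F) * y⁻¹ ∈ LL (0 : Divisor k F) := by
        rw [mem_LL_iff (mul_ne_zero hx0 (inv_ne_zero hy)), divF_mul hx0 (inv_ne_zero hy),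
          divF_inv, e]
        simp
      rw [LL_zero hc, Submodule.mem_span_singleton] at hm
      obtain ⟨c, hc'⟩ := hm
      have hcx : c • y = x := by
        rw [← one_mul y, ← smul_mul_assoc, hc', inv_mul_cancel_right₀ hy]
      refine ⟨c, Finset.mem_erase.2 ⟨?_, Finset.mem_univ _⟩, Subtype.ext hcx⟩
      rintro rfl
      exact hx0 (by rw [← hcx, zero_smul])
  rw [Finset.sum_congr rfl h2, Finset.sum_const, smul_eq_mul,
    Finset.card_erase_of_mem (Finset.mem_univ _), Finset.card_univ, hcard] at h1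
  have hq : 1 ≤ Fintype.card k := Fintype.card_pos
  have hq' : 1 ≤ Fintype.card k ^ ell D := Nat.one_le_pow _ _ hq
  have h3 := congrArg (Nat.cast : ℕ → ℚ) h1
  push_cast [hq, hq'] at h3
  rw [h3, mul_comm]

theorem exists_L [Fintype k] (hc : ∀ x : F, IsAlgebraic k x → x ∈ (algebraMap k F).range)
    {g : ℕ} {W : Divisor k F} (h : IsRR g W) (h1 : ∃ D : Divisor k F, degD D = 1) :
    ∃ L : ℤ[X], (L : PowerSeries ℤ) = (PowerSeries.mk fun n => (Aeff k F n : ℤ)) *
        (1 - PowerSeries.X) * (1 - PowerSeries.C (Fintype.card k : ℤ) * PowerSeries.X) ∧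
      L.natDegree ≤ 2 * g ∧
      (∀ i ≤ g, L.coeff (2 * g - i) = (Fintype.card k : ℤ) ^ (g - i) * L.coeff i) ∧
      L.eval 1 ≠ 0 := by
  classical
  obtain ⟨D1, hD1⟩ := h1
  let dg : Divisor k F ⧸ ZL_H k F →+ ℤ := QuotientAddGroup.lift (ZL_H k F) degD (by
    rintro _ ⟨x, hx, rfl⟩
    exact h.degD_divF hx)
  have hdg : ∀ D : Divisor k F, dg D = degD D := fun _ => rfl
  have hd1 : dg D1 = 1 := hD1
  have hfg : {C | dg C = g}.Finite := by
    refine ((finite_eff (k := k) (F := F) g).image QuotientAddGroup.mk).subset fun C hC => ?_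
    obtain ⟨D, rfl⟩ := QuotientAddGroup.mk_surjective C
    have hD : degD D = g := hC
    have h2 := h.eq D
    have h3 : LL D ≠ ⊥ := fun h0 => by
      rw [ell, h0, finrank_bot] at h2
      omega
    obtain ⟨x, hx, hx0⟩ := Submodule.exists_mem_ne_zero_of_ne_bot h3
    refine ⟨divF k x + D, ⟨(mem_LL_iff hx0).1 hx, ?_⟩, (ZL_mk_eq.2 ⟨x, hx0, rfl⟩).symm⟩
    rw [map_add, h.degD_divF hx0, zero_add, hD]
  have hfin : ∀ n : ℤ, {C | dg C = n}.Finite := fun n => by
    refine (hfg.image fun C => C + (n - g) • (D1 : Divisor k F ⧸ ZL_H k F)).subset fun C hC => ?_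
    have hC' : dg C = n := hC
    refine ⟨C - (n - g) • (D1 : Divisor k F ⧸ ZL_H k F), ?_, sub_add_cancel _ _⟩
    show dg _ = _
    rw [map_sub, map_zsmul, hC', hd1]
    simp
  obtain ⟨S, hS⟩ : ∃ S : ℤ → Finset (Divisor k F ⧸ ZL_H k F), ∀ n C, C ∈ S n ↔ dg C = n :=
    ⟨fun n => (hfin n).toFinset, fun n C => (hfin n).mem_toFinset⟩
  have hcardS : ∀ n, (S n).card = (S 0).card := fun n => by
    refine Finset.card_nbij' (fun C => C - n • (D1 : Divisor k F ⧸ ZL_H k F))
      (fun C => C + n • (D1 : Divisor k F ⧸ ZL_H k F)) (fun C hC => ?_) (fun C hC => ?_)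
      (fun C _ => sub_add_cancel _ _) (fun C _ => add_sub_cancel_right _ _)
    · rw [Finset.mem_coe, hS] at hC ⊢
      rw [map_sub, map_zsmul, hC, hd1]; simp
    · rw [Finset.mem_coe, hS] at hC ⊢
      rw [map_add, map_zsmul, hC, hd1]; simp
  have hq0 : (Fintype.card k : ℚ) ≠ 0 := by exact_mod_cast Fintype.card_ne_zero
  refine ZL_alg (Fintype.card k) Fintype.one_lt_card g
    (fun n => ({D : Divisor k F | 0 ≤ D ∧ degD D = n}.ncard : ℤ)) (fun n hn => ?_)
    (fun n => ∑ C ∈ S n, (Fintype.card k : ℚ) ^ ZL_ell C) (S 0).card ?_ (fun n => ?_)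
    (fun n => ?_)
  · have : {D : Divisor k F | 0 ≤ D ∧ degD D = n} = ∅ :=
      Set.eq_empty_of_forall_notMem fun D hD => by
        have := degD_nonneg hD.1
        rw [hD.2] at this
        omega
    simp [this]
  · have : (S 0).Nonempty := ⟨0, (hS _ _).2 (map_zero _)⟩
    exact_mod_cast this.card_pos.ne'
  · have hf := finite_eff (k := k) (F := F) n
    have e1 := Finset.card_eq_sum_card_fiberwise (s := hf.toFinset) (t := S n)
      (f := fun D : Divisor k F => (D : Divisor k F ⧸ ZL_H k F)) (by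
        intro D hD
        exact (hS _ _).2 (hf.mem_toFinset.1 hD).2)
    rw [Set.ncard_eq_toFinset_card _ hf, e1, ← hcardS n]
    push_cast
    rw [Finset.mul_sum, Finset.card_eq_sum_ones (S n)]
    push_cast
    rw [← Finset.sum_sub_distrib]
    refine Finset.sum_congr rfl fun C hC => ?_
    obtain ⟨D, rfl⟩ := QuotientAddGroup.mk_surjective C
    have := h.fin D
    rw [ZL_ell_mk]
    refine ZL_count hc D _ fun E => ?_
    rw [Finset.mem_filter, hf.mem_toFinset]
    constructor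
    · exact fun hE => ⟨hE.1.1, hE.2.symm⟩
    · refine fun hE => ⟨⟨hE.1, ?_⟩, hE.2.symm⟩
      rw [← hdg, ← hE.2]
      exact (hS _ _).1 hC
  · have hW : dg W = 2 * g - 2 := h.degD_W hc
    rw [Finset.mul_sum]
    refine Finset.sum_nbij' (fun C => (W : Divisor k F ⧸ ZL_H k F) - C)
      (fun C => (W : Divisor k F ⧸ ZL_H k F) - C) (fun C hC => ?_) (fun C hC => ?_)
      (fun C _ => sub_sub_cancel _ _) (fun C _ => sub_sub_cancel _ _) (fun C hC => ?_)
    · rw [hS] at hC ⊢
      rw [map_sub, hC, hW]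
    · rw [hS] at hC ⊢
      rw [map_sub, hC, hW]; ring
    · obtain ⟨D, rfl⟩ := QuotientAddGroup.mk_surjective C
      have hD : degD D = n := (hS _ _).1 hC
      have e := h.eq D
      rw [← QuotientAddGroup.mk_sub, ZL_ell_mk, ZL_ell_mk, ← hD, ← e, ← zpow_natCast,
        ← zpow_natCast, ← zpow_add₀ hq0, sub_add_cancel]

end Pool.Agent.P.MP_a2beea_nt.RR
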