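import Pool.Agent.P.MP_a2beea_nt.RR.ZDefs
import Pool.Agent.P.MP_a2beea_nt.FC.Defs

/-!
Constant points fixed by a power of Frobenius, counted by places.

Sketch: a point `x : Pt k E L` with `x.O ≠ ⊤` is a place `P` (with `P.O = x.O`) together with the
`k`-algebra map `ResidueField P.O → L` induced by `x.ev` (`ev_max` kills the maximal ideal);
conversely such a pair defines a point (`ev a = φ (residue a)` on `P.O`, zero outside). There are
`P.deg` such maps (`AlgHom.card`, a finite field extension of a finite field is separable). The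
residue field has `q ^ P.deg` elements, and `φ c ^ q ^ n = φ c` for all `c` iff `c ^ q ^ n = c`
for all `c` iff `P.deg ∣ n` (order of Frobenius: `FiniteField.orderOf_frobeniusAlgHom` or
`FiniteField.orderOf_frobeniusAlgEquivOfAlgebraic`). Finiteness: `finite_deg_dvd`.
For the last theorem: the bound forces `Npl k E n ≠ 0` for all large `n`, so there are places
`P`, `Q` with `deg P ∣ n`, `deg Q ∣ n + 1`; their degrees are coprime, use Bezout.
-/

namespace Pool.Agent.P.MP_a2beea_nt.RR

open Pool.Agent.FFC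

variable {k E : Type*} [Field k] [Fintype k] [Field E] [Algebra k E] [IsFF k E]

section aux

open IsLocalRing

variable {L : Type*} [Field L] [Algebra k L]

open Classical in
/-- The point given by a place and an embedding of its residue field. -/
noncomputable def zptOf (P : Place k E) (φ : ResidueField P.O →ₐ[k] L) : Pt k E L where
  O := P.O
  ev := fun a => if h : a ∈ P.O then φ (residue P.O ⟨a, h⟩) else 0
  junk := fun a h => dif_neg h
  alg_mem := P.const_mem
  ev_alg := fun c => by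
    rw [dif_pos (P.const_mem c)]
    exact φ.commutes c
  ev_add := fun a ha b hb => by
    rw [dif_pos ha, dif_pos hb, dif_pos (add_mem ha hb), ← map_add, ← map_add]
    rfl
  ev_mul := fun a ha b hb => by
    rw [dif_pos ha, dif_pos hb, dif_pos (mul_mem ha hb), ← map_mul, ← map_mul]
    rfl
  ev_max := fun a ha h => by
    rw [dif_pos ha]
    have : residue P.O ⟨a, ha⟩ = 0 := by
      rw [residue_eq_zero_iff, ← ValuationSubring.coe_mem_nonunits_iff,
        ValuationSubring.mem_nonunits_iff_or]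
      exact Or.inr h
    rw [this, map_zero]

omit [Fintype k] [IsFF k E] in
theorem zptOf_ev (P : Place k E) (φ : ResidueField P.O →ₐ[k] L) (a : P.O) :
    (zptOf P φ).ev a = φ (residue P.O a) := dif_pos a.2

omit [Fintype k] [IsFF k E] in
theorem zptOf_inj (P : Place k E) {φ ψ : ResidueField P.O →ₐ[k] L}
    (h : zptOf P φ = zptOf P ψ) : φ = ψ := by
  ext c
  obtain ⟨a, rfl⟩ := residue_surjective c
  rw [← zptOf_ev, ← zptOf_ev, h]

omit [Fintype k] [IsFF k E] in
theorem exists_zptOf (x : Pt k E L) (hx : x.O ≠ ⊤) :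
    ∃ (P : Place k E) (φ : ResidueField P.O →ₐ[k] L), zptOf P φ = x := by
  obtain ⟨P, hP⟩ : ∃ P : Place k E, P.O = x.O := ⟨⟨x.O, hx, x.alg_mem⟩, rfl⟩
  have hm : ∀ a : P.O, (a : E) ∈ x.O := fun a => hP ▸ a.2
  let f : P.O →ₐ[k] L :=
    { toFun := fun a => x.ev a
      map_one' := x.ev_one
      map_mul' := fun a b => x.ev_mul a (hm a) b (hm b)
      map_zero' := x.ev_zero
      map_add' := fun a b => x.ev_add a (hm a) b (hm b)
      commutes' := fun c => x.ev_alg c }
  have hf : ∀ a ∈ maximalIdeal P.O, f a = 0 := by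
    intro a ha
    rw [← ValuationSubring.coe_mem_nonunits_iff, ValuationSubring.mem_nonunits_iff_or] at ha
    rcases ha with ha | ha
    · show x.ev a = 0
      rw [ha, x.ev_zero]
    · exact x.ev_max a (hm a) (hP ▸ ha)
  refine ⟨P, Ideal.Quotient.liftₐ (maximalIdeal P.O) f hf, Pt.ext hP (funext fun a => ?_)⟩
  by_cases ha : a ∈ P.O
  · exact zptOf_ev P _ ⟨a, ha⟩
  · rw [(zptOf P _).junk a ha, x.junk a (hP ▸ ha)]

theorem zptOf_fixed [IsAlgClosed L] (P : Place k E) (φ : ResidueField P.O →ₐ[k] L) (n : ℕ) :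
    (fr k L ^ n) • zptOf P φ = zptOf P φ ↔ P.deg ∣ n := by
  have : Finite (ResidueField P.O) := Module.finite_of_finite k
  have hfr : ∀ y : L, (fr k L ^ n) y = y ^ Fintype.card k ^ n := by
    intro y
    rw [AlgEquiv.coe_pow, ← congrFun (pow_iterate (Fintype.card k) n) y]
    rfl
  have hfr' : ∀ y : ResidueField P.O,
      (FiniteField.frobeniusAlgHom k (ResidueField P.O) ^ n) y = y ^ Fintype.card k ^ n := by
    intro y
    rw [AlgHom.coe_pow, FiniteField.coe_frobeniusAlgHom, pow_iterate]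
  rw [Place.deg, ← FiniteField.orderOf_frobeniusAlgHom, orderOf_dvd_iff_pow_eq_one]
  constructor
  · intro h
    ext c
    obtain ⟨a, rfl⟩ := residue_surjective c
    have h1 := congrFun (congrArg Pt.ev h) a
    rw [Pt.smul_ev, zptOf_ev, hfr, ← map_pow] at h1
    rw [hfr']
    exact φ.toRingHom.injective h1
  · intro h
    refine Pt.ext rfl (funext fun a => ?_)
    rw [Pt.smul_ev]
    by_cases ha : a ∈ P.O
    · have h1 := DFunLike.congr_fun h (residue P.O ⟨a, ha⟩)
      rw [hfr', AlgHom.one_apply] at h1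
      have h2 := zptOf_ev P φ ⟨a, ha⟩
      simp only at h2
      rw [h2, hfr, ← map_pow, h1]
    · rw [(zptOf P φ).junk a ha, map_zero]

theorem natCard_zemb [IsAlgClosed L] (P : Place k E) :
    Nat.card (ResidueField P.O →ₐ[k] L) = P.deg := by
  have : Finite (ResidueField P.O) := Module.finite_of_finite k
  exact AlgHom.natCard_of_splits k (ResidueField P.O) L fun _ => IsAlgClosed.splits _

end aux

theorem nPts_eq (L : Type*) [Field L] [Algebra k L] [IsAlgClosed L] {n : ℕ} (hn : 1 ≤ n) :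
    {x : Pt k E L | x.O ≠ ⊤ ∧ (fr k L ^ n) • x = x}.Finite ∧ nPts k L E n = Npl k E n := by
  have hfin := finite_deg_dvd (k := k) (F := E) (n := n) (by omega)
  have := hfin.fintype
  let f : (Σ P : {P : Place k E | P.deg ∣ n}, (IsLocalRing.ResidueField P.1.O →ₐ[k] L)) →
      Pt k E L := fun s => zptOf s.1.1 s.2
  have hinj : Function.Injective f := by
    rintro ⟨⟨P, hP⟩, φ⟩ ⟨⟨Q, hQ⟩, ψ⟩ h
    have h1 : P = Q := Place.ext (congrArg Pt.O h)
    subst h1
    have h2 : φ = ψ := zptOf_inj P h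
    subst h2
    rfl
  have hr : {x : Pt k E L | x.O ≠ ⊤ ∧ (fr k L ^ n) • x = x} = Set.range f := by
    ext x
    constructor
    · rintro ⟨hx, hx'⟩
      obtain ⟨P, φ, rfl⟩ := exists_zptOf x hx
      exact ⟨⟨⟨P, (zptOf_fixed P φ n).1 hx'⟩, φ⟩, rfl⟩
    · rintro ⟨⟨⟨P, hP⟩, φ⟩, rfl⟩
      exact ⟨P.ne_top, (zptOf_fixed P φ n).2 hP⟩
  have hF : ∀ P : {P : Place k E | P.deg ∣ n},
      Finite (IsLocalRing.ResidueField P.1.O →ₐ[k] L) := fun P =>
    Nat.finite_of_card_ne_zero (by rw [natCard_zemb]; exact P.1.deg_pos.ne')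
  refine ⟨hr ▸ Set.finite_range f, ?_⟩
  rw [nPts, hr, Set.ncard_range_of_injective hinj, Nat.card_sigma, Npl,
    finsum_mem_eq_finite_toFinset_sum _ hfin]
  simp only [natCard_zemb]
  exact (Finset.sum_subtype hfin.toFinset (fun P => hfin.mem_toFinset) fun P => P.deg).symm

theorem exists_degD_one (C : ℝ) (h : ∀ n, 1 ≤ n →
    (1 + (Fintype.card k : ℝ) ^ n - Npl k E n) ^ 2 ≤ C * (Fintype.card k : ℝ) ^ n) :
    ∃ D : Divisor k E, degD D = 1 := by
  have hq : (1 : ℝ) < Fintype.card k := by exact_mod_cast Fintype.one_lt_card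
  obtain ⟨N, hN⟩ := pow_unbounded_of_one_lt C hq
  have key : ∀ n, N + 1 ≤ n → ∃ P : Place k E, P.deg ∣ n := by
    intro n hn
    by_contra hc
    push Not at hc
    have h0 : Npl k E n = 0 := by
      have : {P : Place k E | P.deg ∣ n} = ∅ := Set.eq_empty_of_forall_notMem hc
      rw [Npl, this, finsum_mem_empty]
    have h1 := h n (by omega)
    rw [h0, Nat.cast_zero, sub_zero] at h1
    have h2 : (Fintype.card k : ℝ) ^ N ≤ (Fintype.card k : ℝ) ^ n :=
      pow_le_pow_right₀ hq.le (by omega)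
    have h3 : (0 : ℝ) < (Fintype.card k : ℝ) ^ n := by positivity
    nlinarith
  obtain ⟨P, hP⟩ := key (N + 1) le_rfl
  obtain ⟨Q, hQ⟩ := key (N + 1 + 1) (by omega)
  have hc : Nat.Coprime P.deg Q.deg :=
    Nat.Coprime.coprime_dvd_left hP (Nat.Coprime.coprime_dvd_right hQ (by simp))
  obtain ⟨a, b, hab⟩ := Nat.isCoprime_iff_coprime.2 hc
  exact ⟨Finsupp.single P a + Finsupp.single Q b, by rw [map_add, degD_single, degD_single, hab]⟩

end Pool.Agent.P.MP_a2beea_nt.RR
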