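import Pool.Agent.P.MP_a2beea_nt.RR.ZDefs

/-!
The Euler product in the form of a recurrence.

Sketch: `n * A n` is the sum over effective `D` of degree `n` of `degD D = ∑ P, D P * deg P`.
Write `D P = #{i : 1 ≤ i ≤ D P}` and exchange the sums: for fixed `P` and `i ≥ 1` the map
`D ↦ D - single P i` is a bijection from the effective `D` of degree `n` with `i ≤ D P` to the
effective divisors of degree `n - i * deg P` (none if this is negative). Group the pairs `(P, i)`
by `j = i * deg P`, `1 ≤ j ≤ n`: for given `j` the pairs are the places with `deg P ∣ j`.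
Finiteness: `finite_eff`, `finite_deg_le`, `finite_deg_dvd`, `mul_deg_le`, `Place.deg_pos`.
-/

namespace Pool.Agent.P.MP_a2beea_nt.RR

variable {k F : Type*} [Field k] [Field F] [Algebra k F] [IsFF k F]

theorem Aeff_zero : Aeff k F 0 = 1 := by
  rw [Aeff, Set.ncard_eq_one]
  refine ⟨0, Set.eq_singleton_iff_unique_mem.2 ⟨⟨le_rfl, by simp⟩, fun D hD => ?_⟩⟩
  ext P
  have h1 := mul_deg_le hD.1 P
  have h2 : (0 : ℤ) < P.deg := by exact_mod_cast P.deg_pos
  have h3 : 0 ≤ D P := hD.1 P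
  rw [hD.2] at h1
  change D P = 0
  push_cast at h1
  nlinarith

theorem zrec_count {a : ℤ} {d n : ℕ} (hd : 0 < d) (ha : 0 ≤ a) (h : a * d ≤ n) :
    a * d = ∑ j ∈ Finset.range n,
      if d ∣ j + 1 then (if ((j + 1 : ℕ) : ℤ) ≤ a * d then (d : ℤ) else 0) else 0 := by
  lift a to ℕ using ha
  have h' : a * d ≤ n := by exact_mod_cast h
  have e : ((Finset.range n).filter fun j => d ∣ j + 1 ∧ ((j + 1 : ℕ) : ℤ) ≤ a * d) =
      (Finset.range (a * d)).filter fun j => d ∣ j + 1 := by
    ext j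
    simp only [Finset.mem_filter, Finset.mem_range]
    have : ((j + 1 : ℕ) : ℤ) ≤ a * d ↔ j + 1 ≤ a * d := by exact_mod_cast Iff.rfl
    rw [this]
    constructor
    · rintro ⟨-, h1, h2⟩
      exact ⟨by omega, h1⟩
    · rintro ⟨h1, h2⟩
      exact ⟨by omega, h2, by omega⟩
  simp only [← ite_and]
  rw [← Finset.sum_filter, e, Finset.sum_const, Nat.card_multiples, Nat.mul_div_cancel _ hd,
    nsmul_eq_mul]

theorem Aeff_eq_card [Finite k] (n : ℕ) :
    Aeff k F n = (finite_eff (k := k) (F := F) n).toFinset.card :=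
  Set.ncard_eq_toFinset_card _ _

theorem zrec_shift [Finite k] {n j : ℕ} (hj : j ≤ n) (P : Place k F) (hP : P.deg ∣ j) :
    ((finite_eff (k := k) (F := F) n).toFinset.filter
      fun D => (j : ℤ) ≤ D P * P.deg).card = Aeff k F (n - j) := by
  classical
  obtain ⟨i, rfl⟩ := hP
  have h2 : (0 : ℤ) < P.deg := by exact_mod_cast P.deg_pos
  rw [Aeff_eq_card]
  refine Finset.card_nbij' (fun D => D - Finsupp.single P (i : ℤ))
    (fun D => D + Finsupp.single P (i : ℤ)) (fun D hD => ?_) (fun D hD => ?_)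
    (fun D _ => sub_add_cancel _ _) (fun D _ => add_sub_cancel_right _ _)
  · rw [Finset.mem_coe, Finset.mem_filter, Set.Finite.mem_toFinset] at hD
    rw [Finset.mem_coe, Set.Finite.mem_toFinset]
    obtain ⟨⟨h0, hd⟩, hi⟩ := hD
    refine ⟨sub_nonneg.2 fun Q => ?_, ?_⟩
    · rw [Finsupp.single_apply]
      split_ifs with hQ
      · subst hQ
        push_cast at hi
        nlinarith
      · exact h0 Q
    · rw [map_sub, degD_single, hd, Nat.cast_sub hj]
      push_cast
      ring
  · rw [Finset.mem_coe, Set.Finite.mem_toFinset] at hD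
    rw [Finset.mem_coe, Finset.mem_filter, Set.Finite.mem_toFinset]
    obtain ⟨h0, hd⟩ := hD
    refine ⟨⟨add_nonneg h0 (Finsupp.single_nonneg.2 (Int.natCast_nonneg i)), ?_⟩, ?_⟩
    · rw [map_add, degD_single, hd, Nat.cast_sub hj]
      push_cast
      ring
    · have h3 : 0 ≤ D P := h0 P
      rw [Finsupp.add_apply, Finsupp.single_eq_same]
      push_cast
      nlinarith

omit [IsFF k F] in
theorem zrec_Npl {S : Finset (Place k F)} {j : ℕ} (hS : ∀ P : Place k F, P.deg ∣ j → P ∈ S) :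
    Npl k F j = ∑ P ∈ S, if P.deg ∣ j then P.deg else 0 := by
  rw [← Finset.sum_filter, Npl, ← finsum_mem_coe_finset]
  congr 1
  ext P
  simp only [Set.mem_ofPred_eq, Finset.coe_filter]
  rw [show (P ∈ S ∧ P.deg ∣ j) = (P.deg ∣ j) from propext ⟨And.right, fun h => ⟨hS P h, h⟩⟩]

theorem Aeff_rec [Finite k] (n : ℕ) :
    n * Aeff k F n = ∑ j ∈ Finset.range n, Npl k F (j + 1) * Aeff k F (n - (j + 1)) := by
  classical
  set S := (finite_deg_le (k := k) (F := F) n).toFinset with hS
  set E := (finite_eff (k := k) (F := F) n).toFinset with hE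
  have h1 : ∀ D ∈ E, (n : ℤ) = ∑ P ∈ S, ∑ j ∈ Finset.range n, if P.deg ∣ j + 1 then
      (if ((j + 1 : ℕ) : ℤ) ≤ D P * P.deg then (P.deg : ℤ) else 0) else 0 := fun D hD => by
    obtain ⟨h0, hd⟩ := (Set.Finite.mem_toFinset _).1 hD
    have hle : ∀ P, D P * P.deg ≤ n := fun P => (mul_deg_le h0 P).trans hd.le
    rw [← Finset.sum_congr rfl fun P _ => zrec_count P.deg_pos (h0 P) (hle P), ← hd, degD_apply]
    refine Finsupp.sum_of_support_subset D (fun P hP => ?_) _ fun P _ => zero_mul _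
    have h3 : 0 < D P := lt_of_le_of_ne (h0 P) (Finsupp.mem_support_iff.1 hP).symm
    have h4 : (P.deg : ℤ) ≤ n := by nlinarith [hle P, Int.natCast_nonneg P.deg]
    exact (Set.Finite.mem_toFinset _).2 (by exact_mod_cast h4)
  have h2 : (n : ℤ) * Aeff k F n = ∑ D ∈ E, (n : ℤ) := by
    rw [Finset.sum_const, nsmul_eq_mul, Aeff_eq_card, mul_comm]
  zify
  rw [h2, Finset.sum_congr rfl h1, Finset.sum_comm, Finset.sum_congr rfl fun P _ =>
    Finset.sum_comm, Finset.sum_comm]
  refine Finset.sum_congr rfl fun j hj => ?_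
  have hj' : j + 1 ≤ n := Finset.mem_range.1 hj
  rw [zrec_Npl (S := S) fun P hP =>
    (Set.Finite.mem_toFinset _).2 ((Nat.le_of_dvd j.succ_pos hP).trans hj'), Nat.cast_sum,
    Finset.sum_mul]
  refine Finset.sum_congr rfl fun P _ => ?_
  by_cases hP : P.deg ∣ j + 1
  · simp only [if_pos hP]
    rw [← Finset.sum_filter, Finset.sum_const, zrec_shift hj' P hP, nsmul_eq_mul, mul_comm]
  · simp [if_neg hP]

end Pool.Agent.P.MP_a2beea_nt.RR
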