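import Pool.Agent.P.MP_a2beea_nt.RR.Ded

/-!
Orders of functions at places, localisation and approximation.
-/

namespace Pool.Agent.P.MP_a2beea_nt.RR

open Polynomial IntermediateField IsDedekindDomain WithZero

variable {k F : Type*} [Field k] [Field F] [Algebra k F]

/-- The centre of a place on the ring of a chart. -/
def cen (u : F) (P : Place k F) (hP : u ∈ P.O) : Ideal (Ou k u) where
  carrier := {a | (a : F) ∈ P.O.nonunits}
  add_mem' := fun ha hb => P.O.nonunits.add_mem ha hb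
  zero_mem' := P.O.nonunits.zero_mem
  smul_mem' := fun c x hx => by
    have hc : (c : F) ∈ P.O := c.2 P hP
    show (c : F) * (x : F) ∈ P.O.nonunits
    have hx' : (x : F) ∈ P.O.nonunits := hx
    rw [ValuationSubring.mem_nonunits_iff] at hx' ⊢
    rw [map_mul]
    exact mul_lt_one_of_nonneg_of_lt_one_right ((P.O.valuation_le_one_iff _).2 hc) zero_le hx'

theorem mem_cen {u : F} {P : Place k F} {hP : u ∈ P.O} {a : Ou k u} :
    a ∈ cen u P hP ↔ (a : F) ∈ P.O.nonunits := Iff.rfl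

theorem Place.inv_mem_of_notMem_nonunits (P : Place k F) {x : F} (h : x ∉ P.O.nonunits) :
    x⁻¹ ∈ P.O := by
  rw [ValuationSubring.mem_nonunits_iff_or] at h
  push Not at h
  exact h.2

theorem cen_isPrime (u : F) (P : Place k F) (hP : u ∈ P.O) : (cen u P hP).IsPrime := by
  constructor
  · intro h
    have h1 : (1 : Ou k u) ∈ cen u P hP := h ▸ Submodule.mem_top
    rw [mem_cen, ValuationSubring.mem_nonunits_iff] at h1
    simp at h1
  · intro a b hab
    rw [mem_cen, ValuationSubring.mem_nonunits_iff] at hab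
    rw [mem_cen, mem_cen, ValuationSubring.mem_nonunits_iff, ValuationSubring.mem_nonunits_iff]
    by_contra hc
    push Not at hc
    have : (1 : _) ≤ P.O.valuation ((a * b : Ou k u) : F) := by
      rw [Subalgebra.coe_mul, map_mul]; exact one_le_mul hc.1 hc.2
    exact absurd hab (not_lt.2 this)

namespace Chart

variable {K0 : IntermediateField k F} {u : F}

theorem exists_frac (h : Chart K0 u) (x : F) :
    ∃ a ∈ Ou k u, ∃ b ∈ Ou k u, b ≠ 0 ∧ x = a / b := by
  have := h.ded.2.1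
  obtain ⟨a, b, hb, rfl⟩ := IsFractionRing.div_surjective (A := Ou k u) x
  exact ⟨a, a.2, b, b.2, fun h0 => nonZeroDivisors.ne_zero hb (Subtype.ext h0), rfl⟩

theorem cen_ne_bot (h : Chart K0 u) (P : Place k F) (hP : u ∈ P.O) : cen u P hP ≠ ⊥ := by
  intro h0
  apply P.ne_top
  rw [eq_top_iff]
  intro x _
  obtain ⟨a, ha, b, hb, hb0, rfl⟩ := h.exists_frac x
  have : b ∉ P.O.nonunits := fun hb1 => by
    have h2 : (⟨b, hb⟩ : Ou k u) ∈ cen u P hP := hb1
    rw [h0, Ideal.mem_bot] at h2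
    exact hb0 (congrArg Subtype.val h2)
  rw [div_eq_mul_inv]
  exact mul_mem (ha P hP) (P.inv_mem_of_notMem_nonunits this)

theorem eq_atPrime (h : Chart K0 u) [IsDedekindDomain (Ou k u)] [IsFractionRing (Ou k u) F]
    (P : Place k F) (hP : u ∈ P.O) :
    HeightOneSpectrum.valuationSubringAtPrime F
      (⟨cen u P hP, cen_isPrime u P hP, h.cen_ne_bot P hP⟩ : HeightOneSpectrum (Ou k u)) = P.O := by
  refine ValuationSubring.eq_of_le_of_ne_top _ ?_ P.ne_top
  rintro x ⟨a, s, hs, rfl⟩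
  have h1 : (s : F) ∉ P.O.nonunits := hs
  have h2 := mul_mem (a.2 P hP) (P.inv_mem_of_notMem_nonunits h1)
  exact h2

/-- The valuation ring of a place in the chart is a localisation of the ring of the chart. -/
theorem exists_mul_mem (h : Chart K0 u) (P : Place k F) (hP : u ∈ P.O) {x : F} (hx : x ∈ P.O) :
    ∃ s ∈ Ou k u, s ∉ P.O.nonunits ∧ s * x ∈ Ou k u := by
  have := h.ded.1
  have := h.ded.2.1
  rw [← h.eq_atPrime P hP] at hx
  obtain ⟨a, s, hs, rfl⟩ := hx
  have h1 : (s : F) ∉ P.O.nonunits := hs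
  have h0 : (s : F) ≠ 0 := fun h0 => h1 (h0 ▸ P.O.nonunits.zero_mem)
  refine ⟨s, s.2, h1, ?_⟩
  have : (s : F) * (algebraMap (Ou k u) F a * (algebraMap (Ou k u) F s)⁻¹) = a := by
    show (s : F) * ((a : F) * (s : F)⁻¹) = a
    field_simp
  rw [this]; exact a.2

theorem cen_isMaximal (h : Chart K0 u) (P : Place k F) (hP : u ∈ P.O) :
    (cen u P hP).IsMaximal := by
  have := h.ded.1
  exact (cen_isPrime u P hP).isMaximal (h.cen_ne_bot P hP)

theorem dvr (h : Chart K0 u) (P : Place k F) (hP : u ∈ P.O) : IsDiscreteValuationRing P.O := by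
  have := h.ded.1
  have := h.ded.2.1
  rw [← h.eq_atPrime P hP, HeightOneSpectrum.valuationSubringAtPrime_eq_valuationSubring]
  infer_instance

theorem finite_poles (h : Chart K0 u) (x : F) : {P : Place k F | u ∈ P.O ∧ x ∉ P.O}.Finite := by
  have := h.ded.1
  have := h.ded.2.1
  let f : {P : Place k F | u ∈ P.O ∧ x ∉ P.O} → HeightOneSpectrum.Support (Ou k u) x :=
    fun P => ⟨⟨cen u P.1 P.2.1, cen_isPrime u _ _, h.cen_ne_bot _ _⟩, by
      have h1 := P.2.2
      rw [← h.eq_atPrime P.1 P.2.1,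
        HeightOneSpectrum.valuationSubringAtPrime_eq_valuationSubring] at h1
      rw [Valuation.mem_valuationSubring_iff] at h1
      exact not_le.1 h1⟩
  have hf : Function.Injective f := by
    intro P Q hPQ
    have h1 := congrArg (fun v => HeightOneSpectrum.valuationSubringAtPrime F v.1) hPQ
    simp only [f] at h1
    rw [h.eq_atPrime, h.eq_atPrime] at h1
    exact Subtype.ext (Place.ext h1)
  have : Finite (HeightOneSpectrum.Support (Ou k u) x) := HeightOneSpectrum.Support.finite _ x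
  exact Set.finite_coe_iff.mp (Finite.of_injective f hf)

/-- Every nonzero proper ideal of the ring of a chart vanishes at a place of the chart. -/
theorem exists_place (h : Chart K0 u) (I : Ideal (Ou k u)) (h0 : I ≠ ⊥) (h1 : I ≠ ⊤) :
    ∃ P : Place k F, u ∈ P.O ∧ ∀ a ∈ I, (a : F) ∈ P.O.nonunits := by
  have := h.ded.1
  have := h.ded.2.1
  obtain ⟨m, hm, hI⟩ := Ideal.exists_le_maximal I h1
  let v : HeightOneSpectrum (Ou k u) := ⟨m, hm.isPrime, fun hb => h0 (le_bot_iff.1 (hb ▸ hI))⟩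
  have hv : ∀ a : Ou k u, (a : F) ∈ (v.valuation F).valuationSubring := fun a =>
    v.valuation_le_one (K := F) a
  refine ⟨⟨(v.valuation F).valuationSubring, ?_, fun c => hv ⟨_, (Ou k u).algebraMap_mem c⟩⟩,
    hv ⟨u, self_mem_Ou u⟩, fun a ha => ?_⟩
  · simp only [ne_eq, Valuation.valuationSubring_eq_top_iff, not_not]; infer_instance
  · rw [ValuationSubring.mem_nonunits_iff_or]
    by_cases ha0 : (a : F) = 0
    · exact Or.inl ha0
    · right
      have h2 : v.valuation F (a : F) < 1 := (v.valuation_lt_one_iff_mem (K := F) a).2 (hI ha)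
      intro h3
      have h4 : v.valuation F (a : F)⁻¹ ≤ 1 := h3
      rw [map_inv₀, inv_le_one₀ (zero_lt_iff.2 ((Valuation.ne_zero_iff _).2 ha0))] at h4
      exact absurd h2 (not_lt.2 h4)

end Chart

namespace Place

instance (P : Place k F) : Algebra k P.O :=
  ((algebraMap k F).codRestrict P.O P.const_mem).toAlgebra

instance (P : Place k F) : IsScalarTower k P.O F := IsScalarTower.of_algebraMap_eq fun _ => rfl

/-- The degree of a place. -/
noncomputable def deg (P : Place k F) : ℕ := Module.finrank k (IsLocalRing.ResidueField P.O)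

variable [IsFF k F]

instance (P : Place k F) : IsDiscreteValuationRing P.O := by
  obtain ⟨K0, u, h⟩ := IsFF.ex (k := k) (F := F)
  rcases P.O.mem_or_inv_mem u with hu | hu
  · exact h.dvr P hu
  · exact h.inv.dvr P hu

/-- The normalised valuation of a place. -/
noncomputable def val (P : Place k F) : Valuation F ℤᵐ⁰ :=
  (IsDiscreteValuationRing.maximalIdeal P.O).valuation F

/-- The order of a function at a place. -/
noncomputable def ord (P : Place k F) (x : F) : ℤ := -log (P.val x)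

variable (P : Place k F) {x y : F}

theorem val_le_one_iff : P.val x ≤ 1 ↔ x ∈ P.O :=
  ⟨fun h => by
    obtain ⟨a, rfl⟩ := IsDiscreteValuationRing.exists_lift_of_le_one h
    exact a.2, fun h => HeightOneSpectrum.valuation_le_one (K := F) _ (⟨x, h⟩ : P.O)⟩

theorem val_ne_zero (hx : x ≠ 0) : P.val x ≠ 0 := (Valuation.ne_zero_iff _).2 hx

theorem val_eq (hx : x ≠ 0) : P.val x = exp (-P.ord x) := by
  rw [ord, neg_neg, exp_log (P.val_ne_zero hx)]

@[simp] theorem ord_zero : P.ord 0 = 0 := by simp [ord]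

@[simp] theorem ord_one : P.ord 1 = 0 := by simp [ord]

@[simp] theorem ord_neg (x : F) : P.ord (-x) = P.ord x := by simp [ord]

@[simp] theorem ord_inv (x : F) : P.ord x⁻¹ = -P.ord x := by simp [ord, log_inv]

theorem ord_mul (hx : x ≠ 0) (hy : y ≠ 0) : P.ord (x * y) = P.ord x + P.ord y := by
  simp only [ord, map_mul, log_mul (P.val_ne_zero hx) (P.val_ne_zero hy)]; ring

theorem ord_div (hx : x ≠ 0) (hy : y ≠ 0) : P.ord (x / y) = P.ord x - P.ord y := by
  rw [div_eq_mul_inv, P.ord_mul hx (inv_ne_zero hy), ord_inv, sub_eq_add_neg]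

@[simp] theorem ord_pow (x : F) (n : ℕ) : P.ord (x ^ n) = n * P.ord x := by
  simp [ord, log_pow]

@[simp] theorem ord_zpow (x : F) (n : ℤ) : P.ord (x ^ n) = n * P.ord x := by
  simp [ord, log_zpow]

theorem mem_iff : x ∈ P.O ↔ 0 ≤ P.ord x := by
  rw [← val_le_one_iff]
  by_cases hx : x = 0
  · simp [hx]
  · rw [P.val_eq hx, ← exp_zero, exp_le_exp]; omega

theorem notMem_iff : x ∉ P.O ↔ P.ord x < 0 := by rw [mem_iff, not_le]

theorem mem_nonunits_iff : x ∈ P.O.nonunits ↔ x = 0 ∨ 0 < P.ord x := by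
  rw [ValuationSubring.mem_nonunits_iff_or, notMem_iff, ord_inv]; simp

theorem ord_eq_zero_of_notMem (hx : x ∈ P.O) (h : x ∉ P.O.nonunits) : x ≠ 0 ∧ P.ord x = 0 := by
  rw [mem_nonunits_iff] at h
  rw [mem_iff] at hx
  push Not at h
  exact ⟨h.1, le_antisymm h.2 hx⟩

@[simp] theorem ord_algebraMap (c : k) : P.ord (algebraMap k F c) = 0 := by
  have h1 := P.mem_iff.1 (P.const_mem c)
  have h2 := P.mem_iff.1 (P.const_mem c⁻¹)
  rw [map_inv₀, ord_inv] at h2
  omega

theorem ord_smul {c : k} (hc : c ≠ 0) (x : F) : P.ord (c • x) = P.ord x := by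
  by_cases hx : x = 0
  · simp [hx]
  · rw [Algebra.smul_def, P.ord_mul (by simpa using hc) hx, ord_algebraMap, zero_add]

theorem exists_unif : ∃ z : F, z ≠ 0 ∧ P.ord z = 1 := by
  obtain ⟨z, hz⟩ := (IsDiscreteValuationRing.maximalIdeal P.O).valuation_exists_uniformizer F
  refine ⟨z, ?_, ?_⟩
  · rintro rfl
    rw [map_zero] at hz
    exact exp_ne_zero hz.symm
  · rw [ord, val, hz, log_exp]; rfl

theorem exists_ord (n : ℤ) : ∃ z : F, z ≠ 0 ∧ P.ord z = n := by
  obtain ⟨z, h0, h1⟩ := P.exists_unif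
  exact ⟨z ^ n, zpow_ne_zero n h0, by simp [h1]⟩

/-- The functions of order at least `n` at `P`. -/
def pw (P : Place k F) (n : ℤ) : Submodule k F where
  carrier := {x | P.val x ≤ exp (-n)}
  add_mem' := fun ha hb => (P.val.map_add _ _).trans (max_le ha hb)
  zero_mem' := by simp
  smul_mem' := fun c x hx => by
    show P.val (c • x) ≤ _
    rw [Algebra.smul_def, map_mul]
    exact mul_le_of_le_one_of_le (P.val_le_one_iff.2 (P.const_mem c)) hx

theorem mem_pw {n : ℤ} : x ∈ P.pw n ↔ x = 0 ∨ n ≤ P.ord x := by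
  show P.val x ≤ _ ↔ _
  by_cases hx : x = 0
  · simp [hx]
  · rw [P.val_eq hx, exp_le_exp]; simp [hx]

theorem mem_pw_of_le {n : ℤ} (h : n ≤ P.ord x) : x ∈ P.pw n := P.mem_pw.2 (Or.inr h)

theorem le_of_mem_pw {n : ℤ} (h : x ∈ P.pw n) (hx : x ≠ 0) : n ≤ P.ord x :=
  (P.mem_pw.1 h).resolve_left hx

theorem mem_pw_zero : x ∈ P.pw 0 ↔ x ∈ P.O := by
  rw [mem_pw, mem_iff]
  exact ⟨fun h => h.elim (fun h => by simp [h]) id, Or.inr⟩

theorem mem_pw_one : x ∈ P.pw 1 ↔ x ∈ P.O.nonunits := by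
  rw [mem_pw, mem_nonunits_iff]; rfl

theorem pw_mono {m n : ℤ} (h : m ≤ n) : P.pw n ≤ P.pw m := fun _ hx =>
  P.mem_pw.2 ((P.mem_pw.1 hx).imp id h.trans)

theorem mul_mem_pw {m n : ℤ} (hx : x ∈ P.pw m) (hy : y ∈ P.pw n) : x * y ∈ P.pw (m + n) := by
  by_cases h0 : x = 0
  · simp [h0]
  by_cases h1 : y = 0
  · simp [h1]
  refine P.mem_pw_of_le ?_
  rw [P.ord_mul h0 h1]
  exact add_le_add (P.le_of_mem_pw hx h0) (P.le_of_mem_pw hy h1)

theorem mul_mem_pw_of_mem {n : ℤ} (hx : x ∈ P.O) (hy : y ∈ P.pw n) : x * y ∈ P.pw n := by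
  simpa using P.mul_mem_pw (P.mem_pw_zero.2 hx) hy

theorem mul_mem_pw_iff {n : ℤ} (hx : x ≠ 0) : x * y ∈ P.pw n ↔ y ∈ P.pw (n - P.ord x) := by
  by_cases h1 : y = 0
  · simp [h1]
  rw [mem_pw, mem_pw, P.ord_mul hx h1]
  simp only [mul_eq_zero, hx, h1, false_or]
  omega

theorem ord_add_of_lt (hx : x ≠ 0) (hy : y ∈ P.pw (P.ord x + 1)) :
    x + y ≠ 0 ∧ P.ord (x + y) = P.ord x := by
  have h1 : P.val y < P.val x := by
    refine lt_of_le_of_lt hy ?_
    rw [P.val_eq hx, exp_lt_exp]; omega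
  have h2 := P.val.map_add_eq_of_lt_left h1
  refine ⟨fun h0 => ?_, by rw [ord, h2, ord]⟩
  rw [h0, map_zero] at h2
  exact P.val_ne_zero hx h2.symm

theorem eq_of_le {P Q : Place k F} (h : P.O ≤ Q.O) : P = Q :=
  Place.ext (ValuationSubring.eq_of_le_of_ne_top _ h Q.ne_top)

end Place

theorem finite_poles [IsFF k F] (x : F) : {P : Place k F | x ∉ P.O}.Finite := by
  obtain ⟨K0, u, h⟩ := IsFF.ex (k := k) (F := F)
  refine ((h.finite_poles x).union (h.inv.finite_poles x)).subset fun P hP => ?_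
  exact (P.O.mem_or_inv_mem u).imp (fun hu => ⟨hu, hP⟩) (fun hu => ⟨hu, hP⟩)

theorem finite_ord [IsFF k F] (x : F) : (Function.support fun P : Place k F => P.ord x).Finite := by
  refine ((finite_poles (k := k) x).union (finite_poles x⁻¹)).subset fun P hP => ?_
  have : P.ord x ≠ 0 := hP
  simp only [Set.mem_union, Set.mem_ofPred_eq, Place.notMem_iff, Place.ord_inv]
  omega

end Pool.Agent.P.MP_a2beea_nt.RR
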