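import Pool.Agent.P.MP_a2beea_nt.RR.NB

/-!
The Euler characteristic of a divisor, and the degree of principal and polar divisors.
-/

namespace Pool.Agent.P.MP_a2beea_nt.RR

open Polynomial IntermediateField Module

variable {k F : Type*} [Field k] [Field F] [Algebra k F]

theorem mem_degreeLT_toNat {p : k[X]} {N : ℤ} :
    p ∈ degreeLT k (N + 1).toNat ↔ p = 0 ∨ (p.natDegree : ℤ) ≤ N := by
  rw [mem_degreeLT]
  by_cases hp : p = 0
  · simp [hp]
  · rw [← natDegree_lt_iff_degree_lt hp]
    simp only [hp, false_or]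
    omega

namespace Chart

variable {K0 : IntermediateField k F} {u : F}

theorem eq_zero_of_sum (h : Chart K0 u) {ι : Type*} [Fintype ι] (e : Basis ι K0 F)
    {a : ι → k[X]} (ha : ∑ i, aeval u (a i) * e i = 0) (i : ι) : a i = 0 := by
  have := Fintype.linearIndependent_iff.1 e.linearIndependent
    (fun i => ⟨aeval u (a i), h.aeval_mem _⟩) ha i
  by_contra hc
  exact h.aeval_ne_zero hc (congrArg Subtype.val this)

theorem finrank_of_basis (h : Chart K0 u) {ι : Type*} [Fintype ι] (e : Basis ι K0 F)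
    (V : Submodule k F) (N : ι → ℤ)
    (hV : ∀ x, x ∈ V ↔ ∃ a : ι → k[X], (∀ i, a i = 0 ∨ ((a i).natDegree : ℤ) ≤ N i) ∧
      x = ∑ i, aeval u (a i) * e i) :
    FiniteDimensional k V ∧ finrank k V = ∑ i, (N i + 1).toNat := by
  let Φ : ((i : ι) → degreeLT k (N i + 1).toNat) →ₗ[k] F :=
    { toFun := fun a => ∑ i, aeval u (a i : k[X]) * e i
      map_add' := fun a b => by simp [add_mul, Finset.sum_add_distrib]
      map_smul' := fun c a => by simp [Finset.smul_sum] }
  have hinj : Function.Injective Φ := by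
    rw [injective_iff_map_eq_zero]
    intro a ha
    exact funext fun i => Subtype.ext (h.eq_zero_of_sum e ha i)
  have hr : LinearMap.range Φ = V := by
    ext x
    rw [hV]
    constructor
    · rintro ⟨a, rfl⟩
      exact ⟨fun i => a i, fun i => mem_degreeLT_toNat.1 (a i).2, rfl⟩
    · rintro ⟨a, ha, rfl⟩
      exact ⟨fun i => ⟨a i, mem_degreeLT_toNat.2 (ha i)⟩, rfl⟩
  have hf : ∀ n, Module.Finite k (degreeLT k n) := fun n => .of_basis (degreeLT.basis k n)
  rw [← hr]
  refine ⟨inferInstance, ?_⟩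
  rw [LinearMap.finrank_range_of_inj hinj, Module.finrank_pi_fintype]
  exact Finset.sum_congr rfl fun i _ => by
    rw [finrank_eq_card_basis (degreeLT.basis k _), Fintype.card_fin]

variable [IsFF k F]

theorem IsNB.mem_Ln_iff {D : Divisor k F} {ι : Type*} [Fintype ι] {e : ι → F} {d : ι → ℤ}
    (hb : IsNB u D e d) (n : ℤ) (x : F) : x ∈ Ln u D n ↔ ∃ a : ι → k[X],
      (∀ i, a i = 0 ∨ ((a i).natDegree : ℤ) ≤ n - d i) ∧ x = ∑ i, aeval u (a i) * e i := by
  constructor
  · intro hx
    obtain ⟨a, rfl⟩ := hb.span x (Ln_le_Iu _ _ _ hx)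
    exact ⟨a, hb.deg a n hx, rfl⟩
  · rintro ⟨a, ha, rfl⟩
    exact Submodule.sum_mem _ fun i _ => by simpa using aeval_mul_mem_Ln (hb.mem i) (ha i)

theorem finite_Ln (h : Chart K0 u) (D : Divisor k F) (n : ℤ) : FiniteDimensional k (Ln u D n) := by
  obtain ⟨e, d, hb⟩ := h.exists_isNB D
  exact (h.finrank_of_basis e _ _ (hb.mem_Ln_iff n)).1

end Chart

variable [IsFF k F]

instance (D : Divisor k F) : FiniteDimensional k (LL D) := by
  obtain ⟨K0, u, h⟩ := IsFF.ex (k := k) (F := F)
  rw [← Ln_zero u D]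
  exact h.finite_Ln D 0

theorem LL_comap_eq (D : Divisor k F) (P : Place k F) {x : F}
    (hx : x ∈ LL (D + Finsupp.single P 1)) : x ∈ LL D ↔ x ∈ P.pw (-D P) := by
  classical
  refine ⟨fun h => mem_LL.1 h P, fun h => mem_LL.2 fun Q => ?_⟩
  by_cases hQ : P = Q
  · subst hQ; exact h
  · simpa [Finsupp.single_apply, hQ] using mem_LL.1 hx Q

/-- The leading coefficient map on `L(D + P)`; its kernel is `L(D)`. -/
theorem exists_lead (D : Divisor k F) (P : Place k F) {y : F} (h0 : y ≠ 0)
    (h1 : P.ord y = D P + 1) :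
    ∃ f : LL (D + Finsupp.single P 1) →ₗ[k] IsLocalRing.ResidueField P.O,
      (∀ (x : LL (D + Finsupp.single P 1)) (hx : y * (x : F) ∈ P.O),
        f x = IsLocalRing.residue P.O ⟨y * (x : F), hx⟩) ∧
      finrank k (LinearMap.range f) + ell D = ell (D + Finsupp.single P 1) := by
  have h1' : P.ord y = -(-D P - 1) := by omega
  have hy : y ∈ P.pw (-(-D P - 1)) := P.mem_pw_of_le h1'.ge
  have hle : LL (D + Finsupp.single P 1) ≤ P.pw (-D P - 1) := fun x hx => by
    simpa [sub_eq_add_neg, add_comm] using mem_LL.1 hx P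
  let f := P.lead hy ∘ₗ Submodule.inclusion hle
  refine ⟨f, fun x hx => rfl, ?_⟩
  have hk : LinearMap.ker f = (LL D).comap (LL (D + Finsupp.single P 1)).subtype := by
    ext x
    rw [LinearMap.mem_ker, Submodule.mem_comap, Submodule.subtype_apply, LL_comap_eq D P x.2]
    have := P.lead_eq_zero_iff hy h0 h1' (Submodule.inclusion hle x)
    rw [sub_add_cancel] at this
    exact this
  have hD : LL D ≤ LL (D + Finsupp.single P 1) :=
    LL_mono (le_add_of_nonneg_right (Finsupp.single_nonneg.2 zero_le_one))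
  rw [ell, ← (Submodule.comapSubtypeEquivOfLe hD).finrank_eq, ← hk]
  exact f.finrank_range_add_finrank_ker

theorem ell_add_single_le (D : Divisor k F) (P : Place k F) :
    ell (D + Finsupp.single P 1) ≤ ell D + P.deg := by
  obtain ⟨y, h0, h1⟩ := P.exists_ord (D P + 1)
  obtain ⟨f, -, hf⟩ := exists_lead D P h0 h1
  have := (LinearMap.range f).finrank_le
  rw [Place.deg]; omega

/-- `c` is the constant term of `n ↦ ℓ(D + n (u)_∞)` for large `n`. -/
def Chi (u : F) (m : ℕ) (D : Divisor k F) (c : ℤ) : Prop :=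
  ∃ n0 : ℤ, ∀ n, n0 ≤ n → (ell (D + n • poleD k u) : ℤ) = n * m + c

theorem Chi.unique {u : F} {m : ℕ} {D : Divisor k F} {c c' : ℤ} (h : Chi u m D c)
    (h' : Chi u m D c') : c = c' := by
  obtain ⟨n, hn⟩ := h
  obtain ⟨n', hn'⟩ := h'
  have h1 := hn _ (le_max_left n n')
  have h2 := hn' _ (le_max_right n n')
  omega

theorem chi_inv {u : F} (hu : u ≠ 0) {m : ℕ} {D : Divisor k F} {c : ℤ} :
    Chi u⁻¹ m D c ↔ Chi u m D c := by
  have : ∀ n : ℤ, ell (D + n • poleD k u⁻¹) = ell (D + n • poleD k u) := fun n => by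
    rw [poleD_inv, smul_add, ← add_assoc, ← divF_zpow, ell_add_divF _ (zpow_ne_zero _ hu)]
  simp only [Chi, this]

theorem Chi.add_divF {u : F} {m : ℕ} {D : Divisor k F} {c : ℤ} (h : Chi u m D c) {x : F}
    (hx : x ≠ 0) : Chi u m (D + divF k x) c := by
  obtain ⟨n0, hn⟩ := h
  exact ⟨n0, fun n hn' => by rw [add_right_comm, ell_add_divF _ hx, hn n hn']⟩

theorem Chi.add_poleD {u : F} {m : ℕ} {D : Divisor k F} {c : ℤ} (h : Chi u m D c) :
    Chi u m (D + poleD k u) (c + m) := by
  obtain ⟨n0, hn⟩ := h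
  refine ⟨n0, fun n hn' => ?_⟩
  have : D + poleD k u + n • poleD k u = D + (n + 1) • poleD k u := by
    rw [add_smul, one_smul]; abel
  rw [this, hn (n + 1) (by omega)]; ring

namespace Chart

variable {K0 : IntermediateField k F} {u : F}

theorem ell_eq (h : Chart K0 u) {D : Divisor k F} {ι : Type*} [Fintype ι] {e : Basis ι K0 F}
    {d : ι → ℤ} (hb : IsNB u D e d) (n : ℤ) :
    ell (D + n • poleD k u) = ∑ i, (n - d i + 1).toNat :=
  (h.finrank_of_basis e _ _ (hb.mem_Ln_iff n)).2

theorem chi_of_isNB (h : Chart K0 u) {D : Divisor k F} {e : Basis (Fin (finrank K0 F)) K0 F}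
    {d : Fin (finrank K0 F) → ℤ} (hb : IsNB u D e d) :
    Chi u (finrank K0 F) D (∑ i, (1 - d i)) := by
  obtain ⟨N, hN⟩ := Finite.exists_le d
  refine ⟨N, fun n hn => ?_⟩
  rw [h.ell_eq hb, Nat.cast_sum]
  have : ∀ i, ((n - d i + 1).toNat : ℤ) = n + (1 - d i) := fun i => by
    have := hN i
    omega
  simp only [this]
  rw [Finset.sum_add_distrib]
  simp [mul_comm]

theorem chi_step (h : Chart K0 u) {m : ℕ} {D : Divisor k F} {c : ℤ} (hc : Chi u m D c)
    {P : Place k F} (hP : u ∈ P.O) : Chi u m (D + Finsupp.single P 1) (c + P.deg) := by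
  classical
  obtain ⟨n0, hn⟩ := hc
  obtain ⟨y, h0, h1⟩ := P.exists_ord (D P + 1)
  obtain ⟨s, hs⟩ := Module.Finite.fg_top (R := k) (M := IsLocalRing.ResidueField P.O)
  have key : ∀ b : IsLocalRing.ResidueField P.O, ∃ (n : ℕ) (x : F) (hx : y * x ∈ P.O),
      x ∈ Ln u (D + Finsupp.single P 1) n ∧ IsLocalRing.residue P.O ⟨y * x, hx⟩ = b := by
    intro b
    obtain ⟨z, rfl⟩ := IsLocalRing.residue_surjective b
    have hz : y⁻¹ * z ∈ P.pw (-(D + Finsupp.single P 1 : Divisor k F) P) := by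
      rw [P.mul_mem_pw_iff (inv_ne_zero h0), P.ord_inv, h1]
      simp [P.mem_pw_zero]
    obtain ⟨x, hx, hx'⟩ := h.approx' _ hP hz
    obtain ⟨n, hn⟩ := exists_mem_Ln hx
    have h2 : (z : F) - y * x ∈ P.O.nonunits := by
      have e : (z : F) - y * x = y * (y⁻¹ * z - x) := by field_simp
      rw [e, ← P.mem_pw_one, P.mul_mem_pw_iff h0, h1]
      exact P.pw_mono (by simp) hx'
    have h3 : y * x ∈ P.O := by
      have := sub_mem z.2 (ValuationSubring.nonunits_subset h2)
      rwa [sub_sub_cancel] at this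
    refine ⟨n, x, h3, hn, ?_⟩
    symm
    rw [← sub_eq_zero, ← map_sub, IsLocalRing.residue_eq_zero_iff,
      ← ValuationSubring.coe_mem_nonunits_iff]
    exact h2
  choose N x hx hxN hxb using key
  refine ⟨max n0 (s.sup N : ℕ), fun n hn' => ?_⟩
  obtain ⟨f, hf, hf'⟩ := exists_lead (D + n • poleD k u) P h0
    (by simp only [h1, Finsupp.add_apply, Finsupp.smul_apply, poleD_of_mem hP, smul_zero, add_zero])
  have hr : LinearMap.range f = ⊤ := by
    rw [eq_top_iff, ← hs, Submodule.span_le]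
    intro b hb
    have h2 : (N b : ℤ) ≤ n := by
      have : N b ≤ s.sup N := Finset.le_sup hb
      have := le_of_max_le_right hn'
      omega
    have h3 := Ln_mono u _ h2 (hxN b)
    rw [Ln, add_right_comm] at h3
    exact ⟨⟨x b, h3⟩, by rw [hf _ (hx b), hxb]⟩
  rw [add_right_comm, ← hf', hr, finrank_top, Nat.cast_add, hn n (le_of_max_le_left hn'),
    Place.deg]
  ring

theorem exists_chi (h : Chart K0 u) :
    ∃ c : ℤ, ∀ D : Divisor k F, Chi u (finrank K0 F) D (degD D + c) := by
  have hex : ∀ D : Divisor k F, ∃ c, Chi u (finrank K0 F) D c := fun D => by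
    obtain ⟨e, d, hb⟩ := h.exists_isNB D
    exact ⟨_, h.chi_of_isNB hb⟩
  choose χ hχ using hex
  have h1 : ∀ (D : Divisor k F) (P : Place k F), χ (D + Finsupp.single P 1) = χ D + P.deg := by
    intro D P
    refine (hχ _).unique ?_
    rcases P.O.mem_or_inv_mem u with hP | hP
    · exact h.chi_step (hχ D) hP
    · exact (chi_inv h.ne_zero).1 (h.inv.chi_step ((chi_inv h.ne_zero).2 (hχ D)) hP)
  have h2 : ∀ (P : Place k F) (n : ℤ) (D : Divisor k F),
      χ (D + Finsupp.single P n) = χ D + n * P.deg := by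
    intro P n D
    induction n using Int.induction_on with
    | zero => simp
    | succ n ih => rw [Finsupp.single_add, ← add_assoc, h1, ih]; ring
    | pred n ih =>
      have := h1 (D + Finsupp.single P (-(n : ℤ) - 1)) P
      rw [add_assoc, ← Finsupp.single_add, sub_add_cancel, ih] at this
      linarith
  have h3 : ∀ D : Divisor k F, χ D = degD D + χ 0 := by
    intro D
    induction D using Finsupp.induction with
    | zero => simp
    | single_add P n D _ _ ih => rw [add_comm, h2, ih, map_add, degD_single]; ring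
  exact ⟨χ 0, fun D => h3 D ▸ hχ D⟩

theorem degD_poleD (h : Chart K0 u) : degD (poleD k u) = finrank K0 F := by
  obtain ⟨c, hc⟩ := h.exists_chi
  have := (hc 0).add_poleD.unique (hc _)
  rw [zero_add, map_zero] at this
  omega

end Chart

/-- A principal divisor has degree zero. -/
theorem degD_divF {x : F} (hx : x ≠ 0) : degD (divF k x) = 0 := by
  obtain ⟨K0, u, h⟩ := IsFF.ex (k := k) (F := F)
  obtain ⟨c, hc⟩ := h.exists_chi
  have := ((hc 0).add_divF hx).unique (hc _)
  rw [zero_add, map_zero] at this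
  omega

end Pool.Agent.P.MP_a2beea_nt.RR
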