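import Mathlib

/-!
Places of a function field in one variable, charts, and the Dedekind ring of a chart.
-/

namespace Pool.Agent.P.MP_a2beea_nt.RR

open Polynomial IntermediateField IsDedekindDomain

/-- A place of `F/k`: a valuation ring of `F`, different from `F`, that contains `k`. -/
@[ext] structure Place (k F : Type*) [Field k] [Field F] [Algebra k F] where
  O : ValuationSubring F
  ne_top : O ≠ ⊤
  const_mem : ∀ c : k, algebraMap k F c ∈ O

/-- `u` is transcendental over `k`, `K0 = k(u)`, and `F/K0` is finite separable. -/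
structure Chart {k F : Type*} [Field k] [Field F] [Algebra k F] (K0 : IntermediateField k F)
    (u : F) : Prop where
  trans : Transcendental k u
  adj : k⟮u⟯ = K0
  fin : FiniteDimensional K0 F
  sep : Algebra.IsSeparable K0 F

/-- `F/k` is a separably generated function field in one variable. -/
class IsFF (k F : Type*) [Field k] [Field F] [Algebra k F] : Prop where
  ex : ∃ (K0 : IntermediateField k F) (u : F), Chart K0 u

variable {k F : Type*} [Field k] [Field F] [Algebra k F]

/-- The functions that are regular wherever `u` is. -/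
def Ou (k : Type*) {F : Type*} [Field k] [Field F] [Algebra k F] (u : F) : Subalgebra k F where
  carrier := {x | ∀ P : Place k F, u ∈ P.O → x ∈ P.O}
  mul_mem' := fun ha hb P hP => mul_mem (ha P hP) (hb P hP)
  add_mem' := fun ha hb P hP => add_mem (ha P hP) (hb P hP)
  algebraMap_mem' := fun c P _ => P.const_mem c

theorem mem_Ou {u x : F} : x ∈ Ou k u ↔ ∀ P : Place k F, u ∈ P.O → x ∈ P.O := Iff.rfl

theorem self_mem_Ou (u : F) : u ∈ Ou k u := fun _ h => h

theorem Place.aeval_mem (P : Place k F) {u : F} (hu : u ∈ P.O) (p : k[X]) : aeval u p ∈ P.O := by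
  induction p using Polynomial.induction_on' with
  | add p q hp hq => rw [map_add]; exact add_mem hp hq
  | monomial n c => rw [aeval_monomial]; exact mul_mem (P.const_mem c) (pow_mem hu n)

theorem Place.smul_mem (P : Place k F) (c : k) {x : F} (hx : x ∈ P.O) : c • x ∈ P.O := by
  rw [Algebra.smul_def]; exact mul_mem (P.const_mem c) hx

theorem aeval_mem_Ou (u : F) (p : k[X]) : aeval u p ∈ Ou k u := fun P h => P.aeval_mem h p

theorem adjoin_le_Ou (u : F) : Algebra.adjoin k {u} ≤ Ou k u :=
  Algebra.adjoin_le (by simpa using self_mem_Ou u)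

theorem mem_adjoin_iff {u x : F} : x ∈ Algebra.adjoin k {u} ↔ ∃ p : k[X], aeval u p = x := by
  rw [Algebra.adjoin_singleton_eq_range_aeval]; rfl

theorem isIntegral_of_forall_mem (A : Subalgebra k F) {x : F}
    (h : ∀ P : Place k F, (∀ a ∈ A, a ∈ P.O) → x ∈ P.O) : IsIntegral A x := by
  have h1 : x ∈ (integralClosure (Subring.closure (A : Set F)) F).toSubring := by
    rw [← iInf_valuationSubring_superset, Subring.mem_iInf]
    rintro ⟨V, hV⟩
    by_cases hT : V = ⊤
    · subst hT; exact ValuationSubring.mem_top x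
    · exact h ⟨V, hT, fun c => hV (A.algebraMap_mem c)⟩ (fun a ha => hV ha)
  have h2 : IsIntegral (Subring.closure (A : Set F)) x := h1
  have h3 : Subring.closure (A : Set F) = A.toSubring := Subring.closure_eq A.toSubring
  rw [h3] at h2
  exact h2

theorem Place.mem_of_isIntegral (P : Place k F) (A : Subalgebra k F) (hA : ∀ a ∈ A, a ∈ P.O)
    {x : F} (h : IsIntegral A x) : x ∈ P.O := by
  have h1 : x ∈ (integralClosure (Subring.closure (A : Set F)) F).toSubring := by
    have h3 : Subring.closure (A : Set F) = A.toSubring := Subring.closure_eq A.toSubring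
    show IsIntegral (Subring.closure (A : Set F)) x
    rw [h3]; exact h
  rw [← iInf_valuationSubring_superset, Subring.mem_iInf] at h1
  exact h1 ⟨P.O, fun a ha => hA a ha⟩

theorem mem_Ou_iff_isIntegral {u x : F} : x ∈ Ou k u ↔ IsIntegral (Algebra.adjoin k {u}) x := by
  constructor
  · intro h
    exact isIntegral_of_forall_mem _ fun P hP => h P (hP u (Algebra.self_mem_adjoin_singleton k u))
  · intro h P hP
    refine P.mem_of_isIntegral _ (fun a ha => ?_) h
    obtain ⟨p, rfl⟩ := mem_adjoin_iff.1 ha
    exact P.aeval_mem hP p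

/-- A function without poles is algebraic over `k`. -/
theorem isAlgebraic_of_forall_mem {x : F} (h : ∀ P : Place k F, x ∈ P.O) : IsAlgebraic k x := by
  have h1 : IsIntegral (⊥ : Subalgebra k F) x := isIntegral_of_forall_mem _ fun P _ => h P
  have : Algebra.IsIntegral k (⊥ : Subalgebra k F) := inferInstance
  exact (isIntegral_trans x h1).isAlgebraic

theorem Place.mem_of_isAlgebraic (P : Place k F) {x : F} (h : IsAlgebraic k x) : x ∈ P.O := by
  refine P.mem_of_isIntegral ⊥ (fun a ha => ?_) h.isIntegral.tower_top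
  obtain ⟨c, rfl⟩ := Algebra.mem_bot.1 ha
  exact P.const_mem c

theorem exists_pole {x : F} (h : Transcendental k x) : ∃ P : Place k F, x ∉ P.O := by
  by_contra hc
  push Not at hc
  exact h (isAlgebraic_of_forall_mem hc)

namespace Chart

variable {K0 : IntermediateField k F} {u : F}

theorem ne_zero (h : Chart K0 u) : u ≠ 0 := by
  rintro rfl; exact h.trans isAlgebraic_zero

theorem inv (h : Chart K0 u) : Chart K0 u⁻¹ where
  trans := fun h' => h.trans (by simpa using h'.inv)
  adj := by
    rw [← h.adj]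
    apply le_antisymm
    · exact adjoin_simple_le_iff.2 (inv_mem (mem_adjoin_simple_self k u))
    · refine adjoin_simple_le_iff.2 ?_
      simpa using inv_mem (mem_adjoin_simple_self k u⁻¹)
  fin := h.fin
  sep := h.sep

theorem isFF (h : Chart K0 u) : IsFF k F := ⟨⟨K0, u, h⟩⟩

theorem self_mem (h : Chart K0 u) : u ∈ K0 := h.adj ▸ mem_adjoin_simple_self k u

theorem aeval_mem (h : Chart K0 u) (p : k[X]) : aeval u p ∈ K0 := by
  induction p using Polynomial.induction_on' with
  | add p q hp hq => rw [map_add]; exact add_mem hp hq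
  | monomial n c => rw [aeval_monomial]; exact mul_mem (K0.algebraMap_mem c) (pow_mem h.self_mem n)

theorem aeval_injective (h : Chart K0 u) : Function.Injective (aeval u : k[X] →ₐ[k] F) :=
  transcendental_iff_injective.1 h.trans

theorem aeval_ne_zero (h : Chart K0 u) {p : k[X]} (hp : p ≠ 0) : aeval u p ≠ 0 :=
  fun h0 => hp (h.aeval_injective (by simpa using h0))

theorem exists_div (h : Chart K0 u) {x : F} (hx : x ∈ K0) :
    ∃ p q : k[X], q ≠ 0 ∧ x = aeval u p / aeval u q := by
  rw [← h.adj, mem_adjoin_simple_iff] at hx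
  obtain ⟨p, q, rfl⟩ := hx
  by_cases hq : q = 0
  · exact ⟨0, 1, one_ne_zero, by simp [hq]⟩
  · exact ⟨p, q, hq, rfl⟩

open scoped IntermediateField.algebraAdjoinAdjoin in
theorem ded (h : Chart K0 u) : IsDedekindDomain (Ou k u) ∧ IsFractionRing (Ou k u) F ∧
    (∃ s : Finset F, (∀ x ∈ s, x ∈ Ou k u) ∧
      ∀ x ∈ Ou k u, x ∈ Submodule.span (Algebra.adjoin k {u}) (s : Set F)) ∧
    ∀ x ∈ Ou k u, ((Algebra.trace K0 F x : K0) : F) ∈ Algebra.adjoin k {u} := by
  classical
  obtain ⟨ht, rfl, hf, hs⟩ := h
  set A := Algebra.adjoin k {u} with hA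
  have e : k[X] ≃ₐ[k] A := Polynomial.algEquivOfTranscendental k u ht
  have hP : IsPrincipalIdealRing A := IsPrincipalIdealRing.of_surjective e.toRingEquiv e.surjective
  letI : Algebra A (Ou k u) := (Subalgebra.inclusion (adjoin_le_Ou u)).toAlgebra
  haveI : IsScalarTower A (Ou k u) F := IsScalarTower.of_algebraMap_eq fun _ => rfl
  haveI : IsIntegralClosure (Ou k u) A F :=
    ⟨Subtype.val_injective, fun {x} => by
      rw [← mem_Ou_iff_isIntegral]
      exact ⟨fun hx => ⟨⟨x, hx⟩, rfl⟩, by rintro ⟨y, rfl⟩; exact y.2⟩⟩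
  refine ⟨IsIntegralClosure.isDedekindDomain A k⟮u⟯ F (Ou k u),
    IsIntegralClosure.isFractionRing_of_finite_extension A k⟮u⟯ F (Ou k u), ?_, ?_⟩
  · have hfin : Module.Finite A (Ou k u) := IsIntegralClosure.finite A k⟮u⟯ F (Ou k u)
    obtain ⟨s, hs⟩ := hfin.fg_top
    refine ⟨s.image Subtype.val, ?_, ?_⟩
    · intro x hx
      obtain ⟨y, -, rfl⟩ := Finset.mem_image.1 hx
      exact y.2
    · intro x hx
      have h1 : (⟨x, hx⟩ : Ou k u) ∈ Submodule.span A (s : Set (Ou k u)) := hs ▸ Submodule.mem_top
      have h2 := Submodule.mem_map_of_mem (f := (IsScalarTower.toAlgHom A (Ou k u) F).toLinearMap) h1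
      rw [Submodule.map_span] at h2
      rw [Finset.coe_image]
      exact h2
  · intro x hx
    have h1 : IsIntegral A (Algebra.trace k⟮u⟯ F x) :=
      Algebra.isIntegral_trace (mem_Ou_iff_isIntegral.1 hx)
    obtain ⟨a, ha⟩ := IsIntegrallyClosed.isIntegral_iff.1 h1
    rw [← ha]
    exact a.2

end Chart

end Pool.Agent.P.MP_a2beea_nt.RR
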